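import Pool.Agent.Lib.MP_799fdf_al.Gen.CP
import Pool.Agent.Lib.MP_799fdf_al.Cop.CPL

/-! # The condition -/

set_option autoImplicit false

open scoped commutatorElement

namespace MP799fdf

namespace Tw

open Inn

/-- `N` is central in `L`, and for every section `H / Y` of `N` and every prime `p` that divides `|H / Y|`, the
index of `L C(L)` in the centraliser of `H / Y` is not divisible by `p`. -/
def Dg {K : Type} [Group K] {L N : Subgroup K} (h : Loc L N) : Prop :=
  ⁅N, L⁆ = ⊥ ∧ ∀ (H Y : Subgroup K) (_ : H.Normal) (hY : Y.Normal), Y < H → H ≤ N →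
    ∀ p : ℕ, p.Prime → p ∣ Y.relIndex H → ¬ p ∣ (L ⊔ cen L N h.nN).relIndex (cen H Y hY)

/-- the condition -/
def DP (K : Type) [Group K] : Prop := ∀ (L N : Subgroup K) (h : Loc L N), Dg h

/-- PROOF. `L ≤ cen H Y` as `⁅L, H⁆ ≤ ⁅L, N⁆ = ⊥`; an element of `cen L N` commutes with `L ≥ H` (`Cop.cen_iff`). -/
theorem sup_le_cen {K : Type} [Group K] {L N : Subgroup K} (h : Loc L N) (hN : ⁅N, L⁆ = ⊥)
    {H Y : Subgroup K} (hY : Y.Normal) (hH : H ≤ N) : L ⊔ cen L N h.nN ≤ cen H Y hY := by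
  refine sup_le ?_ ?_
  · intro x hx
    rw [mem_cen]
    intro y hy
    have h1 : ⁅y, x⁆ ∈ ⁅N, L⁆ := Subgroup.commutator_mem_commutator (hH hy) hx
    rw [hN, Subgroup.mem_bot] at h1
    have h2 : Commute x y := (commutatorElement_eq_one_iff_commute.1 h1).symm
    rw [commutatorElement_eq_one_iff_commute.2 h2]
    exact Y.one_mem
  · intro x hx
    rw [mem_cen]
    intro y hy
    have h2 : Commute x y := (Cop.cen_iff h hN x).1 hx y (h.lt.le (hH hy))
    rw [commutatorElement_eq_one_iff_commute.2 h2]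
    exact Y.one_mem

private theorem tcp_cen_comap {A B : Type} [Group A] [Group B] (f : A →* B)
    {L N : Subgroup B} {L' N' : Subgroup A} (h : Loc L N) (h' : Loc L' N') (h1 : L'.map f = L)
    (h2 : N' = L' ⊓ N.comap f) :
    cen L' N' h'.nN = (cen L N h.nN).comap f := by
  ext x
  rw [Subgroup.mem_comap, mem_cen, mem_cen]
  constructor
  · intro hx z hz
    rw [← h1] at hz
    obtain ⟨y, hy, rfl⟩ := Subgroup.mem_map.1 hz
    have h3 := hx y hy
    rw [h2] at h3
    have h4 := Subgroup.mem_comap.1 (Subgroup.mem_inf.1 h3).2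
    rwa [map_commutatorElement] at h4
  · intro hx y hy
    rw [h2]
    refine Subgroup.mem_inf.2 ⟨?_, ?_⟩
    · rw [commutatorElement_def]
      exact L'.mul_mem (h'.nR.conj_mem _ hy x) (L'.inv_mem hy)
    · rw [Subgroup.mem_comap, map_commutatorElement]
      exact hx (f y) (by rw [← h1]; exact Subgroup.mem_map_of_mem f hy)

private theorem tcp_ker_le {A B : Type} [Group A] [Group B] (f : A →* B)
    {L N : Subgroup B} {L' N' : Subgroup A} (h : Loc L N) (h' : Loc L' N') (h1 : L'.map f = L)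
    (h2 : N' = L' ⊓ N.comap f) : f.ker ≤ L' ⊔ cen L' N' h'.nN := by
  refine le_trans ?_ le_sup_right
  rw [tcp_cen_comap f h h' h1 h2]
  intro x hx
  rw [Subgroup.mem_comap, MonoidHom.mem_ker.1 hx]
  exact Subgroup.one_mem _

private theorem tcp_map {A B : Type} [Group A] [Group B] (f : A →* B)
    (hf : Function.Surjective f)
    {L N : Subgroup B} {L' N' : Subgroup A} (h : Loc L N) (h' : Loc L' N') (h1 : L'.map f = L)
    (h2 : N' = L' ⊓ N.comap f) :
    (L' ⊔ cen L' N' h'.nN).map f = L ⊔ cen L N h.nN := by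
  rw [Subgroup.map_sup, h1, tcp_cen_comap f h h' h1 h2,
    Subgroup.map_comap_eq_self_of_surjective hf]

/-- PROOF. As `cp_map`, `cp_ker_le`, `cp_cen_comap` in `Gen/CP.lean` (private there, copy them):
`(L' ⊔ cen L' N').map f = L ⊔ cen L N` and `f.ker ≤ L' ⊔ cen L' N'` (`Subgroup.comap_map_eq_self`). -/
theorem sup_comap {A B : Type} [Group A] [Group B] (f : A →* B) (hf : Function.Surjective f)
    {L N : Subgroup B} {L' N' : Subgroup A} (h : Loc L N) (h' : Loc L' N') (h1 : L'.map f = L)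
    (h2 : N' = L' ⊓ N.comap f) :
    L' ⊔ cen L' N' h'.nN = (L ⊔ cen L N h.nN).comap f := by
  rw [← tcp_map f hf h h' h1 h2, Subgroup.comap_map_eq_self (tcp_ker_le f h h' h1 h2)]

end Tw

end MP799fdf
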