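import Pool.Agent.Lib.MP_799fdf_al.Tw.Defs
import Pool.Agent.Lib.MP_799fdf_al.Tw.CP
import Pool.Agent.Lib.MP_799fdf_al.Cop.TY
import Pool.Agent.Lib.MP_799fdf_al.Cop.CPL

/-! # The data of the engine -/

set_option autoImplicit false

open scoped commutatorElement

namespace MP799fdf

namespace Tw

open Inn
open Cop (TT TA TY)

/-- the image of the local subgroup -/
def TB (G : Type) [Group G] (τ : TT G) : Subgroup (TA G τ) :=
  τ.1.1.map (QuotientGroup.mk' (cen τ.1.1 τ.1.2 τ.2.nN))

instance {G : Type} [Group G] (τ : TT G) : (TB G τ).Normal :=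
  τ.2.nR.map _ (QuotientGroup.mk'_surjective _)

/-- the outer part -/
abbrev TC (G : Type) [Group G] (τ : TT G) : Type := TA G τ ⧸ TB G τ

theorem exists_eng (G : Type) [Group G] [Finite G] (K : Type) [Group K] [Finite K]
    (h1 : ∀ L N : Subgroup K, Loc L N → ⁅N, L⁆ = ⊥) (h2 : TY G K) :
    ∃ D : Eng K {L : Subgroup K // ∃ N, Loc L N} (TT G) (TA G) (TC G),
      (∀ i, D.R i = i.1) ∧
      (∀ i N (h : Loc i.1 N) x, D.al i x = 1 ↔ x ∈ cen i.1 N h.nN) ∧
      ∀ i N (h : Loc i.1 N), (D.rho i).ker = i.1 ⊔ cen i.1 N h.nN := by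
  classical
  choose N hN using fun i : {L : Subgroup K // ∃ N, Loc L N} => i.2
  choose t a ha hk hm using fun i : {L : Subgroup K // ∃ N, Loc L N} => h2 i.1 (N i) (hN i)
  have hNN : ∀ i M, Loc i.1 M → M = N i := by
    intro i M hM
    apply le_antisymm
    · rcases (hN i).max M hM.nN hM.lt.le with h3 | h3
      · exact h3
      · exact absurd hM.lt (by rw [h3]; exact lt_irrefl _)
    · rcases hM.max (N i) (hN i).nN (hN i).lt.le with h3 | h3
      · exact h3
      · exact absurd (hN i).lt (by rw [h3]; exact lt_irrefl _)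
  have hker : ∀ i, (a i).ker = cen i.1 (N i) (hN i).nN := by
    intro i
    ext x
    rw [MonoidHom.mem_ker]
    exact hk i x
  have hB : ∀ i, TB G (t i) = i.1.map (a i) := fun i => (hm i).symm
  obtain ⟨n, hn⟩ := Cop.solv_quot (⨆ i : {L : Subgroup K // ∃ N, Loc L N}, i.1)
    (by
      have : ∀ i : {L : Subgroup K // ∃ N, Loc L N}, (i.1).Normal := fun i => (hN i).nR
      infer_instance)
    (fun L M h => le_iSup (fun i : {L : Subgroup K // ∃ N, Loc L N} => i.1) ⟨L, M, h⟩)
  refine ⟨{ R := fun i => i.1
            t := t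
            al := a
            u := fun τ => QuotientGroup.mk' (TB G τ)
            nR := fun i => (hN i).nR
            comm := fun i j hij x hx y hy =>
              Cop.loc_comm (hN i) (hN j) (h1 i.1 (N i) (hN i)) (h1 j.1 (N j) (hN j))
                (fun h => hij (Subtype.ext h)) x hx y hy
            surj := ha
            usurj := fun τ => QuotientGroup.mk'_surjective (TB G τ)
            mapR := fun i x => by
              rw [QuotientGroup.mk'_apply, QuotientGroup.eq_one_iff, hB]
              exact Subgroup.mem_map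
            ker := fun i x => by
              rw [hk i x]
              exact Cop.cen_iff (hN i) (h1 i.1 (N i) (hN i)) x
            n := n
            solv := hn }, fun i => rfl, fun i M hM x => ?_, fun i M hM => ?_⟩
  · have e := hNN i M hM
    subst e
    exact hk i x
  · have e := hNN i M hM
    subst e
    rw [← hker i]
    show ((QuotientGroup.mk' (TB G (t i))).comp (a i)).ker = _
    rw [← MonoidHom.comap_ker, QuotientGroup.ker_mk', hB, Subgroup.comap_map_eq]

end Tw

end MP799fdf
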