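import Pool.Agent.Lib.MP_799fdf_al.Tw.CP
import Pool.Agent.Lib.MP_799fdf_al.Inn.KStrB
import Pool.Agent.Lib.MP_799fdf_al.Cop.TY

/-! # Groups with a monolith -/

set_option autoImplicit false

open scoped commutatorElement

namespace MP799fdf

namespace Tw

open Inn

variable {K : Type} [Group K] [Finite K] {V : Subgroup K}

/-- PROOF. `Nat.card K = p ^ a * m`, `p ∤ m` (`Nat.exists_eq_pow_mul_and_not_dvd`). `T = {z ∈ N | z ^ m = 1}` is a
normal subgroup (`N` is commutative). If `T ≠ ⊥` then `V ≤ T` (`hV.le`), but `V` has an element of order `p`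
(`exists_prime_orderOf_dvd_card'`), whose order would divide `m`. So `T = ⊥`, and for `z ∈ N`
`z ^ (p ^ a) ∈ T` (`pow_card_eq_one'`). -/
theorem exp_N (hV : IsMono V) {p : ℕ} (hp : p.Prime) (hpV : p ∣ Nat.card V) : ∃ a : ℕ,
    ∀ N : Subgroup K, N.Normal → (∀ x ∈ N, ∀ y ∈ N, Commute x y) → ∀ z ∈ N, z ^ (p ^ a) = 1 := by
  obtain ⟨a, m, hm, hcard⟩ :=
    Nat.exists_eq_pow_mul_and_not_dvd (n := Nat.card K) Nat.card_pos.ne' p hp.ne_one
  refine ⟨a, fun N hN hc z hz => ?_⟩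
  obtain ⟨T, hTm⟩ : ∃ T : Subgroup K, ∀ x, x ∈ T ↔ x ∈ N ∧ x ^ m = 1 :=
    ⟨{ carrier := {x | x ∈ N ∧ x ^ m = 1}
       one_mem' := ⟨N.one_mem, one_pow m⟩
       mul_mem' := fun {x y} hx hy => ⟨N.mul_mem hx.1 hy.1, by
         rw [(hc x hx.1 y hy.1).mul_pow, hx.2, hy.2, one_mul]⟩
       inv_mem' := fun {x} hx => ⟨N.inv_mem hx.1, by rw [inv_pow, hx.2, inv_one]⟩ },
      fun x => Iff.rfl⟩
  have hT : T.Normal := ⟨fun x hx g => by
    rw [hTm] at hx ⊢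
    exact ⟨hN.conj_mem x hx.1 g, by rw [conj_pow, hx.2, mul_one, mul_inv_cancel]⟩⟩
  have hTb : T = ⊥ := by
    by_contra hne
    have hle := hV.le T hT hne
    have := Fact.mk hp
    obtain ⟨v, hv⟩ := exists_prime_orderOf_dvd_card' p hpV
    have h1 := ((hTm _).1 (hle v.2)).2
    have h2 : orderOf (v : K) ∣ m := orderOf_dvd_of_pow_eq_one h1
    rw [Subgroup.orderOf_coe, hv] at h2
    exact hm h2
  have hz' : z ^ (p ^ a) ∈ T :=
    (hTm _).2 ⟨N.pow_mem hz _, by rw [← pow_mul, ← hcard, pow_card_eq_one']⟩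
  rw [hTb] at hz'
  exact Subgroup.mem_bot.1 hz'

end Tw

end MP799fdf
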