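import Pool.Agent.Lib.MP_799fdf_al.Tw.CP
import Pool.Agent.Lib.MP_799fdf_al.Inn.KStrB
import Pool.Agent.Lib.MP_799fdf_al.Cop.TY

/-! # Groups with a monolith, small cases -/

set_option autoImplicit false

open scoped commutatorElement

namespace MP799fdf

namespace Tw

open Inn

variable {K : Type} [Group K] [Finite K] {V : Subgroup K}

/-- PROOF. `cen L ⊥` is normal; if it is not `⊥` then `V ≤ cen L ⊥`, `V ≤ L`, so `V ≤ ⊥` (`loc_inf_cen`). -/
theorem cen_bot (hV : IsMono V) {L : Subgroup K} (h : Loc L ⊥) : cen L ⊥ h.nN = ⊥ := by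
  by_contra hne
  have h1 := hV.le _ (cen_normal L ⊥ h.nR h.nN) hne
  have h2 := hV.le _ h.nR h.ne_bot
  exact hV.ne (le_bot_iff.1 ((le_inf h2 h1).trans (loc_inf_cen h)))

/-- PROOF. `h2 L ⊥ h` gives `a : K → TA G τ` surjective with kernel `cen L ⊥ = ⊥` (`cen_bot`), so injective, and
`Nat.card (TA G τ) ≤ Nat.card G` (a quotient). -/
theorem card_bot (G : Type) [Group G] [Finite G] (h2 : Cop.TY G K) (hV : IsMono V)
    {L : Subgroup K} (h : Loc L ⊥) : Nat.card K ≤ Nat.card G := by
  obtain ⟨τ, a, -, hk, -⟩ := h2 L ⊥ h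
  have hinj : Function.Injective a := by
    rw [injective_iff_map_eq_one]
    intro x hx
    have h1 := (hk x).1 hx
    rw [cen_bot hV h] at h1
    exact Subgroup.mem_bot.1 h1
  have hfin : Finite (Cop.TA G τ) := inferInstance
  exact (Nat.card_le_card_of_injective a hinj).trans
    (Nat.card_le_card_of_surjective _ (QuotientGroup.mk'_surjective (cen τ.1.1 τ.1.2 τ.2.nN)))

/-- PROOF. `exists_loc ⊤`, since `K` is not soluble. -/
theorem exists_loc_top (h : ∀ L N : Subgroup K, ¬ Loc L N) : RB 1 K := by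
  refine ⟨⊤, inferInstance, ?_, (Subgroup.index_top).le⟩
  by_contra hc
  obtain ⟨R, N, hRN, -⟩ := exists_loc (⊤ : Subgroup K) inferInstance hc
  exact h R N hRN

end Tw

end MP799fdf
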