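import Pool.Agent.Lib.MP_799fdf_al.Tw.MzA
import Pool.Agent.Lib.MP_799fdf_al.Tw.PHomB

/-! # Commutators -/

set_option autoImplicit false

open scoped commutatorElement

namespace MP799fdf

namespace Tw

namespace Eng

variable {K : Type} [Group K] [Finite K] {ι T : Type} {A C : T → Type} [∀ τ, Group (A τ)]
  [∀ τ, Group (C τ)] (D : Eng K ι T A C) [Fintype ι] [DecidableEq ι] {Y : Type}

/-- PROOF. Let `f₁, f₂ ∈ Pi` with values in `⨆ R i`, trivial over `Z`. `f_j e = P (r_j e)` (`P_range`), with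
`al i (r_j e i) = al i (f_j e) = g_j (ptD e i)` (`al_P`), where we may take `g_j x = 1` for `x ∈ Z`. Choose
`σ i : A (t i) → R i` with `al i (σ i a) = a` if `u a = 0` for all `q` and `σ i a = 1` otherwise or if `a = 1` (`D.mapR`).
`r i w = ⁅σ i (g₁ ⟨t i, w⟩), σ i (g₂ ⟨t i, w⟩)⁆`: it is `1` if `⟨t i, w⟩ ∈ Z`, and it maps to
`⁅b (g₁ x), b (g₂ x)⁆` with `b y = if ∀ q, u y = 0 then y else 1`, which depends only on `x`. And
`⁅P (r₁ e), P (r₂ e)⁆ = P ⁅r₁ e, r₂ e⁆` (`map_commutatorElement`), with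
`⁅r₁ e i, r₂ e i⁆ = r i (..)` by `comm_eq`. -/
theorem comm_mem (Z : Finset (XX K Y ι C)) {f₁ f₂ : EE K Y ι → K} (h₁ : f₁ ∈ D.DZ Z)
    (h₂ : f₂ ∈ D.DZ Z) (hR₁ : ∀ e, f₁ e ∈ ⨆ i, D.R i) (hR₂ : ∀ e, f₂ e ∈ ⨆ i, D.R i) :
    ⁅f₁, f₂⁆ ∈ D.M Z := by
  classical
  obtain ⟨⟨g₁, hg₁⟩, hz₁⟩ := h₁
  obtain ⟨⟨g₂, hg₂⟩, hz₂⟩ := h₂
  let g₁' : ∀ x : XX K Y ι C, A x.1 :=
    fun x => if x ∈ Z then 1 else g₁ x
  let g₂' : ∀ x : XX K Y ι C, A x.1 :=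
    fun x => if x ∈ Z then 1 else g₂ x
  have e₁ : ∀ e i, D.al i (f₁ e) = g₁' (D.ptD e i) := by
    intro e i
    show _ = if D.ptD e i ∈ Z then 1 else g₁ (D.ptD e i)
    split_ifs with h
    · exact hz₁ e i h
    · exact hg₁ e i
  have e₂ : ∀ e i, D.al i (f₂ e) = g₂' (D.ptD e i) := by
    intro e i
    show _ = if D.ptD e i ∈ Z then 1 else g₂ (D.ptD e i)
    split_ifs with h
    · exact hz₂ e i h
    · exact hg₂ e i
  choose r₁ hr₁ using fun e => D.P_range (f₁ e) (hR₁ e)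
  choose r₂ hr₂ using fun e => D.P_range (f₂ e) (hR₂ e)
  have a₁ : ∀ e i, D.al i (r₁ e i) = g₁' (D.ptD e i) := by
    intro e i
    rw [← D.al_P, hr₁, e₁]
  have a₂ : ∀ e i, D.al i (r₂ e i) = g₂' (D.ptD e i) := by
    intro e i
    rw [← D.al_P, hr₂, e₂]
  have hσ : ∀ i (a : A (D.t i)), ∃ s : D.R i, (a = 1 → s = 1) ∧
      ((D.u (D.t i) a = 1) → D.al i s = a) ∧
      (¬ (D.u (D.t i) a = 1) → s = 1) := by
    intro i a
    by_cases h1 : a = 1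
    · refine ⟨1, fun _ => rfl, fun _ => ?_, fun _ => rfl⟩
      rw [h1]
      exact (D.al i).map_one
    · by_cases h : D.u (D.t i) a = 1
      · obtain ⟨r, hr, hra⟩ := (D.mapR i a).1 h
        exact ⟨⟨r, hr⟩, fun h2 => absurd h2 h1, fun _ => hra, fun h3 => absurd h h3⟩
      · exact ⟨1, fun _ => rfl, fun h3 => absurd h3 h, fun _ => rfl⟩
  choose σ s1 s2 s3 using hσ
  let b : ∀ τ, A τ → A τ := fun τ y => if D.u τ y = 1 then y else 1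
  have hb : ∀ i a, D.al i (σ i a) = b (D.t i) a := by
    intro i a
    show _ = if D.u (D.t i) a = 1 then a else 1
    split_ifs with h
    · exact s2 i a h
    · rw [s3 i a h]
      exact (D.al i).map_one
  refine ⟨fun i w => ⁅σ i (g₁' ⟨D.t i, w⟩), σ i (g₂' ⟨D.t i, w⟩)⁆,
    ⟨fun x => ⁅b x.1 (g₁' x), b x.1 (g₂' x)⁆, fun i w => ?_⟩, fun i w h => ?_, fun e => ?_⟩
  · show D.al i ((D.R i).subtype ⁅σ i (g₁' ⟨D.t i, w⟩), σ i (g₂' ⟨D.t i, w⟩)⁆) = _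
    rw [map_commutatorElement, map_commutatorElement]
    show ⁅D.al i (σ i (g₁' ⟨D.t i, w⟩)), D.al i (σ i (g₂' ⟨D.t i, w⟩))⁆ = _
    rw [hb, hb]
  · have h0 : g₁' ⟨D.t i, w⟩ = 1 := if_pos h
    show ⁅σ i (g₁' ⟨D.t i, w⟩), σ i (g₂' ⟨D.t i, w⟩)⁆ = 1
    rw [h0, s1 i 1 rfl, commutatorElement_one_left]
  · rw [show ⁅f₁, f₂⁆ e = ⁅f₁ e, f₂ e⁆ from rfl, ← hr₁ e, ← hr₂ e, ← map_commutatorElement]
    congr 1
    funext i
    apply Subtype.ext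
    show ⁅(r₁ e i : K), (r₂ e i : K)⁆ =
      ⁅((σ i (g₁' (D.ptD e i)) : D.R i) : K), ((σ i (g₂' (D.ptD e i)) : D.R i) : K)⁆
    refine D.comm_eq i (r₁ e i).2 (r₂ e i).2 (σ i _).2 (σ i _).2 ?_ ?_
    · rw [a₁, s2]
      exact (D.mapR i (g₁' (D.ptD e i))).2 ⟨r₁ e i, (r₁ e i).2, a₁ e i⟩
    · rw [a₂, s2]
      exact (D.mapR i (g₂' (D.ptD e i))).2 ⟨r₂ e i, (r₂ e i).2, a₂ e i⟩

end Eng

end Tw

end MP799fdf
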