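import Pool.Agent.Lib.MP_799fdf_al.Tw.MzB
import Pool.Agent.Lib.MP_799fdf_al.Tw.MzC

/-! # The quotients by M Z -/

set_option autoImplicit false

open scoped commutatorElement

namespace MP799fdf

namespace Tw

namespace Eng

variable {K : Type} [Group K] [Finite K] {ι T : Type} {A C : T → Type} [∀ τ, Group (A τ)]
  [∀ τ, Group (C τ)] (D : Eng K ι T A C) [Fintype ι] [DecidableEq ι] {Y : Type}

/-- PROOF. `dser (DZ Z) n` has values in `dser ⊤ n ≤ ⨆ R i` (evaluation maps, `dser_map`, `dser_mono`),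
and is contained in `DZ Z` (`dser_anti`); `Subgroup.commutator_le` and `comm_mem`. -/
theorem dser_DZ (Z : Finset (XX K Y ι C)) : dser (D.DZ Z) (D.n + 1) ≤ D.M Z := by
  have hv : ∀ f ∈ dser (D.DZ Z) D.n, ∀ e, f e ∈ ⨆ i, D.R i := by
    intro f hf e
    have h1 : (dser (D.DZ Z) D.n).map (Pi.evalMonoidHom (fun _ => K) e) ≤ ⨆ i, D.R i := by
      rw [Inn.dser_map]
      exact (Inn.dser_mono le_top D.n).trans D.solv
    exact h1 ⟨f, hf, rfl⟩
  have hd : dser (D.DZ Z) D.n ≤ D.DZ Z := Inn.dser_anti (D.DZ Z) (Nat.zero_le _)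
  have e : dser (D.DZ Z) (D.n + 1) = ⁅dser (D.DZ Z) D.n, dser (D.DZ Z) D.n⁆ := rfl
  rw [e, Subgroup.commutator_le]
  intro f hf g hg
  exact D.comm_mem Z (hd hf) (hd hg) (hv f hf) (hv g hg)

theorem mzd_M_le_DZ (Z : Finset (XX K Y ι C)) : D.M Z ≤ D.DZ Z := by
  intro f hf
  refine ⟨D.M_le Z hf, fun e i hi => ?_⟩
  obtain ⟨r, _, hZ, hfe⟩ := hf
  rw [hfe e, al_P]
  have h1 := hZ i (D.trD e i, lab e.2 i) hi
  simp only [h1]
  exact (D.al i).map_one

/-- PROOF. `S` = the image of `(DZ Z).subgroupOf Pi` in the quotient: normal, index at most that of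
`(DZ Z).subgroupOf Pi` (`DZ_index`); soluble: `solv_of_dser`, `dser_map` and `dser_DZ` (`dser` of the
`subgroupOf` is mapped by the inclusion to `dser (DZ Z ⊓ Pi)`, `DZ Z ≤ Pi`). -/
theorem rb_quot [∀ τ, Finite (A τ)] {a : ℕ} (ha : ∀ τ, Nat.card (A τ) ≤ a) (Z : Finset (XX K Y ι C))
    [((D.M Z).subgroupOf (D.Pi Y)).Normal] :
    Inn.RB (a ^ Z.card) ((D.Pi Y) ⧸ (D.M Z).subgroupOf (D.Pi Y)) := by
  have hN := D.DZ_normal Z
  have hsurj := QuotientGroup.mk'_surjective ((D.M Z).subgroupOf (D.Pi Y))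
  have hker : (QuotientGroup.mk' ((D.M Z).subgroupOf (D.Pi Y))).ker ≤ (D.DZ Z).subgroupOf (D.Pi Y) := by
    rw [QuotientGroup.ker_mk']
    exact Subgroup.subgroupOf_mono (D.Pi Y) (D.mzd_M_le_DZ Z)
  refine ⟨((D.DZ Z).subgroupOf (D.Pi Y)).map (QuotientGroup.mk' ((D.M Z).subgroupOf (D.Pi Y))),
    hN.map _ hsurj, ?_, ?_⟩
  · apply Inn.solv_of_dser _ (D.n + 1)
    rw [← Inn.dser_map, Subgroup.map_eq_bot_iff, QuotientGroup.ker_mk']
    intro x hx
    rw [Subgroup.mem_subgroupOf]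
    have h1 : (dser ((D.DZ Z).subgroupOf (D.Pi Y)) (D.n + 1)).map (D.Pi Y).subtype ≤ D.M Z := by
      rw [Inn.dser_map, Subgroup.subgroupOf_map_subtype]
      exact (Inn.dser_mono inf_le_left _).trans (D.dser_DZ Z)
    exact h1 ⟨x, hx, rfl⟩
  · rw [Subgroup.index_map_eq _ hsurj hker]
    exact D.DZ_index ha Z

end Eng

end Tw

end MP799fdf
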