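import Pool.Agent.Lib.MP_799fdf_al.Tw.Defs

/-! # The number of functions that factor through `K/L × Y` -/

set_option autoImplicit false

namespace MP799fdf

namespace Tw

/-- PROOF. Such a `w` is determined by the function `(K ⧸ L) × Y → D`, `(x, y) ↦ w (x.out, y)`: injective map,
`Nat.card_fun`, `Nat.card_prod`. -/
theorem card_fac {K Y D : Type} [Group K] [Finite K] [Finite Y] [Finite D] (L : Subgroup K) :
    Nat.card {w : K × Y → D // Fac w L} ≤ Nat.card D ^ (L.index * Nat.card Y) := by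
  have hinj : Function.Injective
      (fun (w : {w : K × Y → D // Fac w L}) (p : (K ⧸ L) × Y) => w.1 (p.1.out, p.2)) := by
    intro w w' h
    apply Subtype.ext
    funext x
    obtain ⟨γ, y⟩ := x
    obtain ⟨l, hl⟩ := QuotientGroup.mk_out_eq_mul L γ
    have hmem : γ⁻¹ * ((γ : K ⧸ L)).out ∈ L := by
      rw [hl, inv_mul_cancel_left]
      exact l.2
    rw [w.2 γ _ y hmem, w'.2 γ _ y hmem]
    exact congrFun h ((γ : K ⧸ L), y)
  refine (Nat.card_le_card_of_injective _ hinj).trans (le_of_eq ?_)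
  rw [Nat.card_fun, Nat.card_prod]
  rfl

/-- the points without label whose function factors through `K/L × Y`.
PROOF. The set is finite; a sum over `τ : T` of `card_fac` (the points are `⟨τ, (w, none)⟩`), each
`≤ n ^ (n * |Y|)` (`1 ≤ n`, `Nat.card (C τ) ≤ n`, `L.index ≤ n`). -/
theorem exists_Z {K Y ι T : Type} [Group K] [Finite K] [Finite Y] [Finite T]
    (C : T → Type) [∀ τ, Finite (C τ)] {n : ℕ} (hn : 1 ≤ n) (hC : ∀ τ, Nat.card (C τ) ≤ n)
    (L : Subgroup K) (hL : L.index ≤ n) :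
    ∃ Z : Finset (XX K Y ι C), Z.card ≤ Nat.card T * n ^ (n * Nat.card Y) ∧
      ∀ (τ : T) (w : K × Y → C τ), Fac w L → (⟨τ, (w, none)⟩ : XX K Y ι C) ∈ Z := by
  classical
  have : Fintype T := Fintype.ofFinite T
  have : Fintype (Σ τ : T, {w : K × Y → C τ // Fac w L}) := Fintype.ofFinite _
  let φ : (Σ τ : T, {w : K × Y → C τ // Fac w L}) → XX K Y ι C := fun x => ⟨x.1, (x.2.1, none)⟩
  refine ⟨Finset.univ.image φ, ?_, fun τ w hw => ?_⟩
  · refine Finset.card_image_le.trans ?_
    rw [Finset.card_univ, ← Nat.card_eq_fintype_card, Nat.card_sigma]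
    have h1 : ∀ τ : T, Nat.card {w : K × Y → C τ // Fac w L} ≤ n ^ (n * Nat.card Y) := by
      intro τ
      refine (card_fac L).trans ((Nat.pow_le_pow_left (hC τ) _).trans ?_)
      exact Nat.pow_le_pow_right hn (Nat.mul_le_mul_right _ hL)
    refine (Finset.sum_le_sum fun τ _ => h1 τ).trans (le_of_eq ?_)
    rw [Finset.sum_const, Finset.card_univ, ← Nat.card_eq_fintype_card, smul_eq_mul]
  · exact Finset.mem_image.2 ⟨⟨τ, ⟨w, hw⟩⟩, Finset.mem_univ _, rfl⟩

end Tw

end MP799fdf
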