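import Pool.Agent.Lib.MP_799fdf_al.Tw.Defs

/-! # Labels -/

set_option autoImplicit false

namespace MP799fdf

namespace Tw

private theorem labG_diff {E₀ ι T G : Type} [Fintype ι] [DecidableEq ι] [AddCommGroup G]
    (W : T → Type) (t : ι → T) (w : E₀ → ∀ i, W (t i)) (f : E₀ × Option ι → G)
    (h : ∀ i, W (t i) × Option ι → G) (hh : ∀ e, f e = ∑ i, h i (w e.1 i, lab e.2 i))
    (e : E₀) (j : ι) :
    f (e, none) - f (e, some j) = h j (w e j, some j) - h j (w e j, none) := by
  rw [hh, hh, ← Finset.sum_sub_distrib, Finset.sum_eq_single j]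
  · have h1 : lab (none : Option ι) j = some j := by simp [lab]
    have h2 : lab (some j) j = none := by simp [lab]
    show h j (w e j, lab none j) - h j (w e j, lab (some j) j) = _
    rw [h1, h2]
  · intro i _ hij
    have h1 : lab (none : Option ι) i = some i := by simp [lab]
    have h2 : lab (some j) i = some i := by
      have : (some j : Option ι) ≠ some i := fun h => hij (Option.some.inj h).symm
      simp [lab, this]
    show h i (w e i, lab none i) - h i (w e i, lab (some j) i) = 0
    rw [h1, h2, sub_self]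
  · intro hj
    exact absurd (Finset.mem_univ j) hj

/-- Labels. PROOF. (as `no_label` in `Cop/CombC.lean`) For `e` and `j` write `P = ⟨t j, w e j, some j⟩`,
`P' = ⟨t j, w e j, none⟩`. For every representation `h`, `f (e, none) - f (e, some j) = h j (w e j, some j) -
h j (w e j, none)`: the other terms agree. It is `0`, by the representation for `Z = {P, P'}` (`2 ≤ m`). So
`h j (w e j, some j) = h j (w e j, none)` for every representation. -/
theorem no_label {E₀ ι T G : Type} [Fintype ι] [DecidableEq ι] [AddCommGroup G] (W : T → Type)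
    (t : ι → T) (w : E₀ → ∀ i, W (t i)) (f : E₀ × Option ι → G) (m : ℕ) (hm : 2 ≤ m)
    (Q : (∀ i, W (t i) × Option ι → G) → Prop)
    (hf : ∀ Z : Finset (Σ τ : T, W τ × Option ι), Z.card ≤ m →
      ∃ h : ∀ i, W (t i) × Option ι → G, (∀ i x, (⟨t i, x⟩ : Σ τ : T, W τ × Option ι) ∈ Z → h i x = 0) ∧
        Q h ∧ ∀ e, f e = ∑ i, h i (w e.1 i, lab e.2 i))
    (h : ∀ i, W (t i) × Option ι → G) (hh : ∀ e, f e = ∑ i, h i (w e.1 i, lab e.2 i))
    (e : E₀) : f (e, none) = ∑ i, h i (w e i, none) := by
  classical
  have key : ∀ j, h j (w e j, some j) = h j (w e j, none) := by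
    intro j
    obtain ⟨h', hZ, _, hh'⟩ := hf {(⟨t j, (w e j, some j)⟩ : Σ τ : T, W τ × Option ι),
      ⟨t j, (w e j, none)⟩} (le_trans (Finset.card_le_two) hm)
    have h1 := labG_diff W t w f h' hh' e j
    rw [hZ j (w e j, some j) (by simp), hZ j (w e j, none) (by simp), sub_self] at h1
    have h2 := labG_diff W t w f h hh e j
    rw [h1] at h2
    exact (sub_eq_zero.1 h2.symm)
  rw [hh]
  refine Finset.sum_congr rfl fun i _ => ?_
  have h1 : lab (none : Option ι) i = some i := by simp [lab]
  show h i (w e i, lab none i) = _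
  rw [h1, key i]

end Tw

end MP799fdf
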