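import Pool.Agent.Lib.MP_799fdf_al.Tw.RedA
import Pool.Agent.Lib.MP_799fdf_al.Tw.CombP
import Pool.Agent.Lib.MP_799fdf_al.Tw.CardZ
import Pool.Agent.Lib.MP_799fdf_al.Tw.Lab

/-! # Functions in all `M Z` -/

set_option autoImplicit false

open scoped commutatorElement

namespace MP799fdf

namespace Tw

/-- the number of parameters -/
noncomputable def bd (n k : ℕ) : ℕ := k * n ^ (n * Nat.card (YY n n)) + 2

namespace Eng

variable {K : Type} [Group K] [Finite K] {ι T : Type} {A C : T → Type} [∀ τ, Group (A τ)]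
  [∀ τ, Group (C τ)] (D : Eng K ι T A C) [Fintype ι] [DecidableEq ι] [Finite T]
  [∀ τ, Finite (C τ)]

/-- `combP` for `s ↦ F (s, none)`, where `zi (F e) = f e`. -/
theorem inf_M {n m p a : ℕ} [NeZero n] (hp : p.Prime)
    (hz : ∀ i, ∀ z ∈ D.R i, D.al i z = 1 → z ^ (p ^ a) = 1) (E : Subgroup K) (hE : E.Normal)
    (hn : ∀ τ, Nat.card (C τ) * E.index ≤ n) (hpE : ∀ i, ¬ p ∣ Nat.card (E.map (D.rho i)))
    (hm : bd n (Nat.card T) ≤ m) (f : EE K (YY n n) ι → K)
    (hf : ∀ Z : Finset (XX K (YY n n) ι C), Z.card ≤ m → f ∈ D.M Z) :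
    f (Fx.one, none) = 1 := by
  classical
  have hEi : 1 ≤ E.index := Nat.one_le_iff_ne_zero.2 Subgroup.index_ne_zero_of_finite
  have hn' : ∀ τ, Nat.card (C τ) ≤ n := fun τ =>
    (Nat.le_mul_of_pos_right _ hEi).trans (hn τ)
  have hm2 : 2 ≤ m := le_trans (by unfold bd; omega) hm
  have hm1 : 1 ≤ m := by omega
  obtain ⟨h, -, hfe⟩ := D.exists_h hm1 f hf ∅ (by simp)
  set F : EE K (YY n n) ι → Additive D.ZZ := fun e =>
    Additive.ofMul (∏ i, h i (D.trD e i, lab e.2 i)) with hF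
  have hrep : ∀ (h' : ∀ i, (K × YY n n → C (D.t i)) × Option ι → D.ZZ),
      (∀ e, f e = D.zi (∏ i, h' i (D.trD e i, lab e.2 i))) →
      ∀ e, F e = ∑ i, Additive.ofMul (h' i (D.trD e i, lab e.2 i)) := by
    intro h' h3 e
    have h4 : ∏ i, h i (D.trD e i, lab e.2 i) = ∏ i, h' i (D.trD e i, lab e.2 i) := by
      apply D.zi_inj
      rw [← hfe e, ← h3 e]
    rw [hF]
    dsimp only
    rw [h4, ofMul_prod]
  have hlab : ∀ (h' : ∀ i, (K × YY n n → C (D.t i)) × Option ι → D.ZZ),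
      (∀ e, f e = D.zi (∏ i, h' i (D.trD e i, lab e.2 i))) →
      ∀ s : Fx K (YY n n), F (s, none) = ∑ i, Additive.ofMul (h' i ((fun x => D.rho i (s.1 x)),
        none)) := by
    intro h' h3 s
    exact no_label (E₀ := Fx K (YY n n)) (fun τ => K × YY n n → C τ) D.t
        (fun e i => D.trD (e, none) i) F m hm2 (fun _ => True)
        (fun Z' hZ' => by
          obtain ⟨h'', h4, h5⟩ := D.exists_h hm1 f hf Z' hZ'
          exact ⟨fun i x => Additive.ofMul (h'' i x),
            fun i x hx => congrArg Additive.ofMul (h4 i x hx), trivial, hrep h'' h5⟩)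
        (fun i x => Additive.ofMul (h' i x)) (hrep h' h3) s
  have key := combP (G := Additive D.ZZ) (n := n) p a hp ?_ (fun i => C (D.t i)) D.rho E hE
    (fun i => hn (D.t i)) hpE (fun s => F (s, none)) ?_ ?_
  · have h1 : ∏ i, h i (D.trD (Fx.one, none) i, lab none i) = 1 :=
      Additive.ofMul.injective key
    rw [hfe (Fx.one, none)]
    change D.zi (∏ i, h i (D.trD (Fx.one, none) i, lab none i)) = 1
    rw [h1, map_one]
  · intro x
    apply Additive.toMul.injective
    rw [toMul_nsmul, toMul_zero]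
    exact D.zz_exp hz _
  · exact ⟨fun i w => Additive.ofMul (h i (w, none)), hlab h hfe⟩
  · intro L hL hidx
    obtain ⟨Z, hZc, hZ⟩ := exists_Z (K := K) (Y := YY n n) (ι := ι) C
      (Nat.one_le_iff_ne_zero.2 (NeZero.ne n)) hn' L hidx
    obtain ⟨h', h1, h3⟩ := D.exists_h hm1 f hf Z
      (hZc.trans (le_trans (by unfold bd; omega) hm))
    refine ⟨fun i w => Additive.ofMul (h' i (w, none)), fun i w hw => ?_, hlab h' h3⟩
    exact congrArg Additive.ofMul (h1 i (w, none) (hZ (D.t i) w hw))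

end Eng

end Tw

end MP799fdf
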