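import Pool.Agent.Lib.MP_799fdf_al.Tw.Defs

/-! # Averages -/

set_option autoImplicit false

namespace MP799fdf

namespace Tw

variable (R X G : Type) [CommRing R] [AddCommGroup G] [Module R G]

/-- the average over a finite type -/
noncomputable def avg [Finite X] : (X → G) →ₗ[R] G :=
  haveI := Fintype.ofFinite X
  Ring.inverse ((Nat.card X : ℕ) : R) • ∑ x, LinearMap.proj x

variable {R X G}

theorem avg_apply [Finite X] [Fintype X] (F : X → G) :
    avg R X G F = Ring.inverse ((Nat.card X : ℕ) : R) • ∑ x, F x := by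
  have h0 : (Fintype.ofFinite X) = (inferInstance : Fintype X) := Subsingleton.elim _ _
  unfold avg
  rw [LinearMap.smul_apply, LinearMap.sum_apply, h0]
  rfl

theorem avg_const [Finite X] (h : IsUnit ((Nat.card X : ℕ) : R)) (F : X → G) (g : G)
    (hF : ∀ x, F x = g) : avg R X G F = g := by
  haveI := Fintype.ofFinite X
  rw [avg_apply, Finset.sum_congr rfl fun x _ => hF x, Finset.sum_const, Finset.card_univ,
    ← Nat.card_eq_fintype_card, ← Nat.cast_smul_eq_nsmul R, smul_smul,
    Ring.inverse_mul_cancel _ h, one_smul]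

theorem avg_equiv {X' : Type} [Finite X] [Finite X'] (e : X ≃ X') (F : X → G) (F' : X' → G)
    (h : ∀ x, F x = F' (e x)) : avg R X G F = avg R X' G F' := by
  haveI := Fintype.ofFinite X
  haveI := Fintype.ofFinite X'
  rw [avg_apply, avg_apply, Nat.card_congr e]
  congr 1
  exact Fintype.sum_equiv e F F' h

/-- The cardinality is a power of `Nat.card L`, which divides `Nat.card E₀`. -/
theorem unit_card {Γ X : Type} [Group Γ] [Finite Γ] [Finite X] {E₀ : Subgroup Γ}
    (hR : IsUnit ((Nat.card E₀ : ℕ) : R)) (L : Subgroup Γ) (hle : L ≤ E₀) :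
    IsUnit ((Nat.card (X → L) : ℕ) : R) := by
  have hL : IsUnit ((Nat.card L : ℕ) : R) := by
    refine isUnit_of_dvd_unit ?_ hR
    exact Nat.cast_dvd_cast (Subgroup.card_dvd_of_le hle)
  have hc : Nat.card (X → L) = Nat.card L ^ Nat.card X := by
    haveI := Fintype.ofFinite X
    rw [Nat.card_pi, Finset.prod_const, Finset.card_univ, Nat.card_eq_fintype_card (α := X)]
  rw [hc, Nat.cast_pow]
  exact hL.pow _

end Tw

end MP799fdf
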