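import Pool.Agent.Lib.MP_799fdf_al.Tw.CP

/-! # The condition and quotients -/

set_option autoImplicit false

open scoped commutatorElement

namespace MP799fdf

namespace Tw

open Inn

private theorem cpa_mapN {A B : Type} [Group A] [Group B] (f : A →* B)
    {L N : Subgroup B} {L' N' : Subgroup A} (h : Loc L N) (h1 : L'.map f = L)
    (h2 : N' = L' ⊓ N.comap f) : N'.map f = N := by
  apply le_antisymm
  · rw [Subgroup.map_le_iff_le_comap, h2]
    exact inf_le_right
  · intro n hn
    have h3 : n ∈ L'.map f := by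
      rw [h1]
      exact h.lt.le hn
    obtain ⟨y, hy, rfl⟩ := Subgroup.mem_map.1 h3
    refine Subgroup.mem_map_of_mem f ?_
    rw [h2]
    exact Subgroup.mem_inf.2 ⟨hy, Subgroup.mem_comap.2 hn⟩

/-- PROOF. `⁅N, L⁆ = ⁅N', L'⁆.map f` (`N = N'.map f`) as in `gd_lift`. For `H, Y` take
`H' = N' ⊓ H.comap f`, `Y' = N' ⊓ Y.comap f`. `H'.map f = H` (as `H ≤ N = N'.map f`),
`Y'.relIndex H' = (Y.comap f).relIndex H' = Y.relIndex (H'.map f) = Y.relIndex H` (`Subgroup.relIndex_comap`,
`Subgroup.relIndex_inf..`: `Y' ⊓ H' = Y.comap f ⊓ H'`), `Y' < H'` (if `H' ≤ Y'` then `H = H'.map f ≤ Y`).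
`cen H' Y' = (cen H Y).comap f`: `⁅x, y⁆ ∈ N'` for all `y ∈ H' ≤ N'` (normal), so it is in `Y'` iff
`⁅f x, f y⁆ ∈ Y`. With `sup_comap` the index is the same (`Subgroup.relIndex_comap`,
`Subgroup.map_comap_eq_self_of_surjective`). -/
theorem dg_lift {A B : Type} [Group A] [Finite A] [Group B] [Finite B] (f : A →* B)
    (hf : Function.Surjective f)
    {L N : Subgroup B} {L' N' : Subgroup A} (h : Loc L N) (h' : Loc L' N') (h1 : L'.map f = L)
    (h2 : N' = L' ⊓ N.comap f) (hg : Dg h') : Dg h := by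
  obtain ⟨g1, g2⟩ := hg
  have hN := cpa_mapN f h h1 h2
  refine ⟨?_, ?_⟩
  · calc ⁅N, L⁆ = ⁅N'.map f, L'.map f⁆ := by rw [hN, h1]
      _ = (⁅N', L'⁆).map f := (Subgroup.map_commutator _ _ _).symm
      _ = ⊥ := by rw [g1, Subgroup.map_bot]
  · intro H Y hH hY hlt hle p hp hd
    have hn' := h'.nN
    have hH' : (N' ⊓ H.comap f).Normal := by
      have := hH.comap f
      exact Subgroup.normal_inf_normal _ _
    have hY' : (N' ⊓ Y.comap f).Normal := by
      have := hY.comap f
      exact Subgroup.normal_inf_normal _ _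
    have hmap : (N' ⊓ H.comap f).map f = H := by
      apply le_antisymm
      · rw [Subgroup.map_le_iff_le_comap]
        exact inf_le_right
      · intro z hz
        have h3 : z ∈ N'.map f := by
          rw [hN]
          exact hle hz
        obtain ⟨n, hn, rfl⟩ := Subgroup.mem_map.1 h3
        exact Subgroup.mem_map_of_mem f (Subgroup.mem_inf.2 ⟨hn, Subgroup.mem_comap.2 hz⟩)
    have hlt' : N' ⊓ Y.comap f < N' ⊓ H.comap f := by
      refine lt_of_le_not_ge (inf_le_inf_left _ (Subgroup.comap_mono hlt.le)) fun h3 => ?_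
      refine not_le_of_gt hlt ?_
      rw [← hmap, Subgroup.map_le_iff_le_comap]
      exact h3.trans inf_le_right
    have hrel : (N' ⊓ Y.comap f).relIndex (N' ⊓ H.comap f) = Y.relIndex H := by
      have e : (N' ⊓ Y.comap f) ⊓ (N' ⊓ H.comap f) = Y.comap f ⊓ (N' ⊓ H.comap f) := by
        apply le_antisymm
        · exact inf_le_inf_right _ inf_le_right
        · exact le_inf (le_inf (inf_le_right.trans inf_le_left) inf_le_left) inf_le_right
      rw [← Subgroup.inf_relIndex_right, e, Subgroup.inf_relIndex_right, Subgroup.relIndex_comap,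
        hmap]
    have hcen : cen (N' ⊓ H.comap f) (N' ⊓ Y.comap f) hY' = (cen H Y hY).comap f := by
      ext x
      rw [Subgroup.mem_comap, mem_cen, mem_cen]
      constructor
      · intro hx z hz
        rw [← hmap] at hz
        obtain ⟨y, hy, rfl⟩ := Subgroup.mem_map.1 hz
        have h4 := Subgroup.mem_comap.1 (Subgroup.mem_inf.1 (hx y hy)).2
        rwa [map_commutatorElement] at h4
      · intro hx y hy
        obtain ⟨hy1, hy2⟩ := Subgroup.mem_inf.1 hy
        refine Subgroup.mem_inf.2 ⟨?_, ?_⟩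
        · rw [commutatorElement_def]
          exact N'.mul_mem (hn'.conj_mem _ hy1 x) (N'.inv_mem hy1)
        · rw [Subgroup.mem_comap, map_commutatorElement]
          exact hx (f y) (Subgroup.mem_comap.1 hy2)
    have h5 := g2 _ _ hH' hY' hlt' inf_le_left p hp (by rw [hrel]; exact hd)
    rwa [hcen, sup_comap f hf h h' h1 h2, Subgroup.relIndex_comap,
      Subgroup.map_comap_eq_self_of_surjective hf] at h5

/-- PROOF. `loc_lift`, `dg_lift`. -/
theorem dp_surj {A B : Type} [Group A] [Finite A] [Group B] [Finite B] (f : A →* B)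
    (hf : Function.Surjective f) (h : DP A) : DP B := by
  intro L N hL
  obtain ⟨L', N', h', h1, h2⟩ := loc_lift f hf hL
  exact dg_lift f hf hL h' h1 h2 (h L' N' h')

end Tw

end MP799fdf
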