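import Pool.Agent.Lib.MP_799fdf_al.Tw.CP
import Pool.Agent.Lib.MP_799fdf_al.Gen.CPB

/-! # One factor -/

set_option autoImplicit false

open scoped commutatorElement

namespace MP799fdf

namespace Tw

open Inn

/-- PROOF. `(L.map f, N.map f)` is local (`loc_map`) and `N = L ⊓ (N.map f).comap f` (`loc_inf_ker`, see `cpb_phi`
in `Gen/CPB.lean`). First part: `⁅N, L⁆.map f = ⁅N.map f, L.map f⁆ = ⊥`. Second part: `H₁ = H.map f`,
`Y₁ = Y.map f`, normal, `Y₁ < H₁ ≤ N.map f`: if `x ∈ H` with `f x = f y`, `y ∈ Y`, then `x * y⁻¹ ∈ H ⊓ f.ker ≤ Y`, so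
`H ⊓ Y₁.comap f = Y`; `Y₁.relIndex H₁ = (Y₁.comap f).relIndex H = Y.relIndex H` (`Subgroup.relIndex_comap`).
So `p` does not divide `(L.map f ⊔ cen ..).relIndex (cen H₁ Y₁)`, which is
`(L ⊔ cen L N).relIndex ((cen H₁ Y₁).comap f)` by `sup_comap` (with `A = K`, `B = A`, `L' = L`) and
`Subgroup.relIndex_comap`, `map_comap_eq_self_of_surjective`. `cen H Y ≤ (cen H₁ Y₁).comap f`
(`⁅f x, f y⁆ = f ⁅x, y⁆`), and `L ⊔ cen L N ≤ cen H Y` by `hLc`, so by `Subgroup.relIndex_mul_relIndex` the index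
in the smaller group divides that in the larger group. -/
theorem dg_case {K A : Type} [Group K] [Finite K] [Group A] [Finite A] (f : K →* A)
    (hf : Function.Surjective f) (hA : DP A) {L N : Subgroup K} (h : Loc L N) (hL : ¬ L ≤ f.ker) :
    (∀ x ∈ ⁅N, L⁆, f x = 1) ∧ ∀ (H Y : Subgroup K) (_ : H.Normal) (hY : Y.Normal), Y < H →
      H ≤ N → H ⊓ f.ker ≤ Y → L ⊔ cen L N h.nN ≤ cen H Y hY → ∀ p : ℕ, p.Prime →
        p ∣ Y.relIndex H → ¬ p ∣ (L ⊔ cen L N h.nN).relIndex (cen H Y hY) := by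
  have h1 := loc_map f hf h hL
  have h2 : N = L ⊓ (N.map f).comap f := by
    apply le_antisymm
    · intro n hn
      exact Subgroup.mem_inf.2 ⟨h.lt.le hn, Subgroup.mem_comap.2 (Subgroup.mem_map_of_mem f hn)⟩
    · intro x hx
      obtain ⟨hx1, hx2⟩ := Subgroup.mem_inf.1 hx
      obtain ⟨n, hn, hnx⟩ := Subgroup.mem_map.1 (Subgroup.mem_comap.1 hx2)
      have h3 : x * n⁻¹ ∈ L ⊓ f.ker := by
        refine Subgroup.mem_inf.2 ⟨L.mul_mem hx1 (L.inv_mem (h.lt.le hn)), ?_⟩
        rw [MonoidHom.mem_ker, map_mul, map_inv, hnx, mul_inv_cancel]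
      have h4 := N.mul_mem (loc_inf_ker h hL h3) hn
      rwa [inv_mul_cancel_right] at h4
  obtain ⟨c1, c2⟩ := hA _ _ h1
  refine ⟨fun x hx => ?_, ?_⟩
  · have h3 : f x ∈ (⁅N, L⁆).map f := Subgroup.mem_map_of_mem f hx
    rw [Subgroup.map_commutator, c1] at h3
    exact Subgroup.mem_bot.1 h3
  · intro H Y hH hY hYH hHN hker hLc p hp hpd hcon
    have hH1 : (H.map f).Normal := hH.map f hf
    have hY1 : (Y.map f).Normal := hY.map f hf
    have hback : ∀ x ∈ H, f x ∈ Y.map f → x ∈ Y := by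
      intro x hx hfx
      obtain ⟨y, hy, hyx⟩ := Subgroup.mem_map.1 hfx
      have h3 : x * y⁻¹ ∈ H ⊓ f.ker := by
        refine Subgroup.mem_inf.2 ⟨H.mul_mem hx (H.inv_mem (hYH.le hy)), ?_⟩
        rw [MonoidHom.mem_ker, map_mul, map_inv, hyx, mul_inv_cancel]
      have h4 := Y.mul_mem (hker h3) hy
      rwa [inv_mul_cancel_right] at h4
    have hlt : Y.map f < H.map f := by
      refine lt_of_le_of_ne (Subgroup.map_mono hYH.le) fun he => ?_
      refine hYH.not_ge fun x hx => hback x hx ?_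
      rw [he]
      exact Subgroup.mem_map_of_mem f hx
    have hinf : (Y.map f).comap f ⊓ H = Y := by
      apply le_antisymm
      · intro x hx
        obtain ⟨hx1, hx2⟩ := Subgroup.mem_inf.1 hx
        exact hback x hx2 (Subgroup.mem_comap.1 hx1)
      · intro y hy
        exact Subgroup.mem_inf.2 ⟨Subgroup.mem_comap.2 (Subgroup.mem_map_of_mem f hy), hYH.le hy⟩
    have hrel : (Y.map f).relIndex (H.map f) = Y.relIndex H := by
      rw [← Subgroup.relIndex_comap, ← Subgroup.inf_relIndex_right, hinf]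
    have hnd := c2 (H.map f) (Y.map f) hH1 hY1 hlt (Subgroup.map_mono hHN) p hp
      (by rw [hrel]; exact hpd)
    have hsup := sup_comap f hf h1 h rfl h2
    have hC : (L ⊔ cen L N h.nN).relIndex ((cen (H.map f) (Y.map f) hY1).comap f) =
        (L.map f ⊔ cen (L.map f) (N.map f) h1.nN).relIndex (cen (H.map f) (Y.map f) hY1) := by
      rw [hsup, Subgroup.relIndex_comap, Subgroup.map_comap_eq_self_of_surjective hf]
    have hle : cen H Y hY ≤ (cen (H.map f) (Y.map f) hY1).comap f := by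
      intro c hc
      rw [Subgroup.mem_comap, mem_cen]
      intro z hz
      obtain ⟨y, hy, rfl⟩ := Subgroup.mem_map.1 hz
      rw [← map_commutatorElement]
      exact Subgroup.mem_map_of_mem f (mem_cen.1 hc y hy)
    refine hnd ?_
    rw [← hC, ← Subgroup.relIndex_mul_relIndex _ _ _ hLc hle]
    exact Dvd.dvd.mul_right hcon _

end Tw

end MP799fdf
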