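import Pool.Agent.Lib.MP_799fdf_al.Tw.Avg

/-! # The functionals `c L` -/

set_option autoImplicit false

open Classical in
section

namespace MP799fdf

namespace Tw

/-- the normal subgroups of index at most `n` that are contained in `E₀` -/
abbrev NS {Γ : Type} [Group Γ] (E₀ : Subgroup Γ) (n : ℕ) : Type :=
  {L : Subgroup Γ // L.Normal ∧ L ≤ E₀ ∧ L.index ≤ n}

instance {Γ : Type} [Group Γ] {E₀ : Subgroup Γ} {n : ℕ} (L : NS E₀ n) : L.1.Normal := L.2.1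

noncomputable instance {Γ : Type} [Group Γ] [Finite Γ] {E₀ : Subgroup Γ} {n : ℕ} :
    Fintype (NS E₀ n) :=
  Fintype.ofFinite _

variable {Γ : Type} [Group Γ] [Finite Γ] {E₀ : Subgroup Γ} {n : ℕ} (R G : Type) [CommRing R] [AddCommGroup G]
  [Module R G]

omit [Finite Γ] in
/-- the canonical map `Γ ⧸ L → Γ ⧸ M` (for `L ≤ M`) -/
noncomputable def prq (L M : NS E₀ n) (x : Γ ⧸ L.1) : Γ ⧸ M.1 := (x.out : Γ)

theorem prq_mk (L M : NS E₀ n) (h : L ≤ M) (γ : Γ) : prq L M (γ : Γ ⧸ L.1) = (γ : Γ ⧸ M.1) := by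
  unfold prq
  have h1 : (((γ : Γ ⧸ L.1)).out : Γ ⧸ L.1) = (γ : Γ ⧸ L.1) := QuotientGroup.out_eq' _
  rw [QuotientGroup.eq] at h1 ⊢
  exact h h1

theorem prq_prq (L U M : NS E₀ n) (h : L ≤ U) (h' : U ≤ M) (x : Γ ⧸ L.1) :
    prq U M (prq L U x) = prq L M x := by
  induction x using QuotientGroup.induction_on with
  | H γ => rw [prq_mk L U h, prq_mk U M h', prq_mk L M (le_trans h h')]

/-- the average over the lifts -/
noncomputable def AA (L M : NS E₀ n) :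
    ((Γ ⧸ L.1 → Γ) → G) →ₗ[R] ((Γ ⧸ M.1 → Γ) → G) :=
  LinearMap.pi fun f => (avg R (Γ ⧸ M.1 → M.1) G).comp (LinearMap.funLeft R G
    fun (l : Γ ⧸ M.1 → M.1) (x : Γ ⧸ L.1) => f (prq L M x) * (l (prq L M x) : Γ))

theorem AA_apply (L M : NS E₀ n) (H : (Γ ⧸ L.1 → Γ) → G) (f : Γ ⧸ M.1 → Γ) :
    AA R G L M H f = avg R (Γ ⧸ M.1 → M.1) G
      fun l => H fun x => f (prq L M x) * (l (prq L M x) : Γ) := rfl

/-- the recursion for `c` -/
def CcEq (c : ∀ L : NS E₀ n, ((Γ ⧸ L.1 → Γ) → G) →ₗ[R] G) : Prop :=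
  ∀ L H, c L H = H Quotient.out - ∑ M ∈ Finset.univ.filter (fun M => L < M), c M (AA R G L M H)

/-- PROOF. Well-founded recursion on `>` (`NS E₀ n` is finite: `wellFounded_gt`), `WellFounded.fix`,
`WellFounded.fix_eq`: `c L = LinearMap.proj Quotient.out - ∑ M, if h : L < M then (c M).comp (AA R G L M) else 0`
(`Finset.sum_dite`/`sum_filter` to rewrite). -/
theorem exists_cc : ∃ c : ∀ L : NS E₀ n, ((Γ ⧸ L.1 → Γ) → G) →ₗ[R] G, CcEq R G c := by
  have hwf : WellFounded (fun a b : NS E₀ n => a > b) := wellFounded_gt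
  let step : ∀ L : NS E₀ n, (∀ M : NS E₀ n, M > L → (((Γ ⧸ M.1 → Γ) → G) →ₗ[R] G)) →
      (((Γ ⧸ L.1 → Γ) → G) →ₗ[R] G) := fun L IH =>
    LinearMap.proj (fun x : Γ ⧸ L.1 => x.out) -
      ∑ M : NS E₀ n, if h : L < M then (IH M h).comp (AA R G L M) else 0
  refine ⟨hwf.fix step, fun L H => ?_⟩
  rw [hwf.fix_eq step L]
  change (LinearMap.proj (fun x : Γ ⧸ L.1 => x.out) -
      ∑ M : NS E₀ n, if h : L < M then (hwf.fix step M).comp (AA R G L M) else 0 :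
      ((Γ ⧸ L.1 → Γ) → G) →ₗ[R] G) H = _
  rw [LinearMap.sub_apply, LinearMap.sum_apply, Finset.sum_filter]
  congr 1
  apply Finset.sum_congr rfl
  intro M _
  by_cases h : L < M
  · rw [dif_pos h, if_pos h]
    rfl
  · rw [dif_neg h, if_neg h]
    rfl

end Tw

end MP799fdf

end
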