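import Pool.Agent.Lib.MP_799fdf_al.Tw.CcA

/-! # The functionals `c L` vanish on functions invariant under a larger subgroup -/

set_option autoImplicit false

namespace MP799fdf

namespace Tw

variable {Γ : Type} [Group Γ] [Finite Γ] {E₀ : Subgroup Γ} {n : ℕ} {R G : Type} [CommRing R] [AddCommGroup G]
  [Module R G]

/-- `H f` depends only on `f` modulo `U` -/
def Inv {X Γ G : Type} [Group Γ] (U : Subgroup Γ) (H : (X → Γ) → G) : Prop :=
  ∀ f f' : X → Γ, (∀ x, (f x)⁻¹ * f' x ∈ U) → H f = H f'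

/-- PROOF. Let `f' = f * u` (pointwise), `u x ∈ U`. `AA H f' = avg_l H ((f * u * l) ∘ prq)`; `H` is invariant
under `U`, `f * u * l = f * l * (l⁻¹ * u * l)`, so every term equals `H ((f * l) ∘ prq)`. -/
theorem inv_AA (L M : NS E₀ n) (U : Subgroup Γ) (hU : U.Normal) (H : (Γ ⧸ L.1 → Γ) → G)
    (hH : Inv U H) : Inv U (AA R G L M H) := by
  intro f f' h
  rw [AA_apply, AA_apply]
  refine congrArg _ (funext fun l => hH _ _ fun x => ?_)
  have e : (f (prq L M x) * (l (prq L M x) : Γ))⁻¹ * (f' (prq L M x) * (l (prq L M x) : Γ)) =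
      (l (prq L M x) : Γ)⁻¹ * ((f (prq L M x))⁻¹ * f' (prq L M x)) * ((l (prq L M x) : Γ)⁻¹)⁻¹ := by
    group
  rw [e]
  exact hU.conj_mem _ (h _) _

/-- PROOF. `f' = f * m` with `m x ∈ M`: substitute `l ↦ m⁻¹ * l` in the average (`avg_equiv`,
`Equiv.mulLeft`). -/
theorem inv_AA_self (L M : NS E₀ n) (H : (Γ ⧸ L.1 → Γ) → G) : Inv M.1 (AA R G L M H) := by
  intro f f' h
  rw [AA_apply, AA_apply]
  symm
  refine avg_equiv (Equiv.mulLeft (fun x : Γ ⧸ M.1 => (⟨(f x)⁻¹ * f' x, h x⟩ : M.1))) _ _ fun l => ?_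
  refine congrArg H (funext fun x => ?_)
  show f' (prq L M x) * (l (prq L M x) : Γ) =
    f (prq L M x) * (((f (prq L M x))⁻¹ * f' (prq L M x)) * (l (prq L M x) : Γ))
  group

/-- PROOF. `f⁻¹ * f' ∈ U ⊔ M` pointwise, `= u * m` (`Subgroup.mem_sup`, normal): go from `f` to `f * u` and to
`f * u * m`. -/
theorem inv_sup {X : Type} (U M : Subgroup Γ) (hU : U.Normal) (H : (X → Γ) → G) (h1 : Inv U H)
    (h2 : Inv M H) : Inv (U ⊔ M) H := by
  intro f f' h
  have h3 : ∀ x, ∃ u ∈ U, ∃ m ∈ M, u * m = (f x)⁻¹ * f' x := by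
    intro x
    have h4 : (f x)⁻¹ * f' x ∈ ((U ⊔ M : Subgroup Γ) : Set Γ) := h x
    rw [Subgroup.normal_mul] at h4
    obtain ⟨u, hu, m, hm, e⟩ := Set.mem_mul.1 h4
    exact ⟨u, hu, m, hm, e⟩
  choose u hu m hm e using h3
  have h5 : H f = H (fun x => f x * u x) := h1 _ _ fun x => by
    rw [inv_mul_cancel_left]
    exact hu x
  have h6 : H (fun x => f x * u x) = H f' := h2 _ _ fun x => by
    have h7 : (f x * u x)⁻¹ * f' x = m x := by
      rw [mul_inv_rev, mul_assoc, ← e x, inv_mul_cancel_left]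
    rw [h7]
    exact hm x
  rw [h5, h6]

/-- For `L ≤ U ≤ M` and `H' g = H (g ∘ prq L U)`: `AA U M H' = AA L M H` (`prq_prq`). -/
theorem AA_comp (L U M : NS E₀ n) (h : L ≤ U) (h' : U ≤ M) (H : (Γ ⧸ L.1 → Γ) → G) :
    AA R G U M (fun g => H fun x => g (prq L U x)) = AA R G L M H := by
  funext f
  rw [AA_apply, AA_apply]
  refine congrArg _ (funext fun l => ?_)
  refine congrArg H (funext fun x => ?_)
  show f (prq U M (prq L U x)) * (l (prq U M (prq L U x)) : Γ) = _
  rw [prq_prq L U M h h' x]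

/-- PROOF. `prq U U = id` (`prq_mk`), every term of the average is `H f` (`avg_const`, `unit_card`). -/
theorem AA_self (hR : IsUnit ((Nat.card E₀ : ℕ) : R)) (U : NS E₀ n) (H : (Γ ⧸ U.1 → Γ) → G)
    (hH : Inv U.1 H) : AA R G U U H = H := by
  funext f
  rw [AA_apply]
  refine avg_const (unit_card hR U.1 U.2.2.1) _ _ fun l => hH _ _ fun x => ?_
  have hx : prq U U x = x := by
    induction x using QuotientGroup.induction_on with
    | H z => exact prq_mk U U le_rfl z
  rw [hx, mul_inv_rev, inv_mul_cancel_right]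
  exact U.1.inv_mem (l x).2

/-- PROOF. Induction on the finite order `NS E₀ n` (from above). `c L H = H out - ∑ M > L, c M (AA L M H)`.
If `¬ U ≤ M` then `AA L M H` is invariant under `U ⊔ M > M` (`inv_AA`, `inv_AA_self`, `inv_sup`; `U ⊔ M` is in
`NS E₀ n`: `Subgroup.index_dvd_of_le`), so the term is `0` by induction. If `U ≤ M` then `AA L M H = AA U M H'`,
`H' g = H (g ∘ prq L U)` (`AA_comp`), `H'` is invariant under `U`. So the sum is
`c U (AA U U H') + ∑ M > U, c M (AA U M H') = c U H' + ∑ .. = H' out` (`AA_self`, the equation for `c U H'`), and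
`H' out = H (out ∘ prq L U) = H out`, as `H` is invariant under `U`. -/
theorem cc_inv (hR : IsUnit ((Nat.card E₀ : ℕ) : R))
    (c : ∀ L : NS E₀ n, ((Γ ⧸ L.1 → Γ) → G) →ₗ[R] G) (hc : CcEq R G c) (L U : NS E₀ n) (h : L < U)
    (H : (Γ ⧸ L.1 → Γ) → G) (hH : Inv U.1 H) : c L H = 0 := by
  classical
  have main : ∀ L U : NS E₀ n, L < U → ∀ H : (Γ ⧸ L.1 → Γ) → G, Inv U.1 H → c L H = 0 := by
    clear hH H h U L
    intro L
    induction L using WellFoundedGT.induction with
    | ind L ih =>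
    intro U hLU H hH
    let H' : (Γ ⧸ U.1 → Γ) → G := fun g => H fun x => g (prq L U x)
    have hH' : Inv U.1 H' := fun f f' h => hH _ _ fun x => h _
    have e1 : ∀ M ∈ Finset.univ.filter (fun M : NS E₀ n => L < M),
        c M (AA R G L M H) = if U ≤ M then c M (AA R G U M H') else 0 := by
      intro M hM
      have hLM : L < M := (Finset.mem_filter.1 hM).2
      by_cases hUM : U ≤ M
      · rw [if_pos hUM, AA_comp L U M hLU.le hUM H]
      · rw [if_neg hUM]
        have hle : M.1 ≤ U.1 ⊔ M.1 := le_sup_right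
        let W : NS E₀ n := ⟨U.1 ⊔ M.1, inferInstance, sup_le U.2.2.1 M.2.2.1,
          (Nat.le_of_dvd (Nat.pos_of_ne_zero Subgroup.index_ne_zero_of_finite)
            (Subgroup.index_dvd_of_le hle)).trans M.2.2.2⟩
        have hMW : M < W := by
          refine lt_of_le_of_ne hle fun e => hUM ?_
          have e2 : M.1 = U.1 ⊔ M.1 := congrArg Subtype.val e
          show U.1 ≤ M.1
          rw [e2]
          exact le_sup_left
        exact ih M hLM W hMW _ (inv_sup U.1 M.1 U.2.1 _ (inv_AA L M U.1 U.2.1 H hH)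
          (inv_AA_self L M H))
    have e3 : ∑ M ∈ Finset.univ.filter (fun M : NS E₀ n => L < M), c M (AA R G L M H) =
        c U (AA R G U U H') +
          ∑ M ∈ Finset.univ.filter (fun M : NS E₀ n => U < M), c M (AA R G U M H') := by
      rw [Finset.sum_congr rfl e1, ← Finset.sum_filter]
      have e4 : (Finset.univ.filter (fun M : NS E₀ n => L < M)).filter (fun M => U ≤ M) =
          insert U (Finset.univ.filter (fun M : NS E₀ n => U < M)) := by
        ext M
        simp only [Finset.mem_filter, Finset.mem_univ, true_and, Finset.mem_insert]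
        constructor
        · rintro ⟨_, h2⟩
          rcases h2.eq_or_lt with h3 | h3
          · exact Or.inl h3.symm
          · exact Or.inr h3
        · rintro (h3 | h3)
          · rw [h3]
            exact ⟨hLU, le_rfl⟩
          · exact ⟨hLU.trans h3, h3.le⟩
      rw [e4, Finset.sum_insert]
      simp
    have e5 := hc U H'
    have e6 : ∑ M ∈ Finset.univ.filter (fun M : NS E₀ n => L < M), c M (AA R G L M H) =
        H' Quotient.out := by
      rw [e3, AA_self hR U H' hH', e5]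
      exact sub_add_cancel _ _
    have e7 : H' Quotient.out = H Quotient.out := by
      refine hH _ _ fun x => ?_
      have h8 : ((Quotient.out (prq L U x) : Γ) : Γ ⧸ U.1) = ((Quotient.out x : Γ) : Γ ⧸ U.1) :=
        Quotient.out_eq _
      exact QuotientGroup.eq.1 h8
    have e8 := hc L H
    rw [e8]
    have e9 : ∑ M ∈ Finset.univ.filter (fun M : NS E₀ n => L < M), c M (AA R G L M H) =
        H Quotient.out := e6.trans e7
    rw [sub_eq_zero, ← e9]
  exact main L U h H hH

/-- PROOF. All `AA L M H` (`M > L`) vanish, `map_zero`. -/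
theorem cc_supp (c : ∀ L : NS E₀ n, ((Γ ⧸ L.1 → Γ) → G) →ₗ[R] G) (hc : CcEq R G c) (L : NS E₀ n)
    (H : (Γ ⧸ L.1 → Γ) → G)
    (hH : ∀ M : NS E₀ n, L < M → ∀ g : Γ ⧸ M.1 → Γ, H (fun x => g (prq L M x)) = 0) :
    c L H = H Quotient.out := by
  classical
  rw [hc L H]
  have h0 : ∀ M : NS E₀ n, L < M → AA R G L M H = 0 := by
    intro M hM
    funext f
    rw [AA_apply]
    have h1 : (fun l : Γ ⧸ M.1 → M.1 => H fun x => f (prq L M x) * (l (prq L M x) : Γ)) = 0 := by
      funext l
      exact hH M hM fun y => f y * (l y : Γ)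
    rw [h1, map_zero]
    rfl
  rw [Finset.sum_eq_zero, sub_zero]
  intro M hM
  rw [h0 M (Finset.mem_filter.1 hM).2, map_zero]

end Tw

end MP799fdf
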