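import Pool.Agent.Lib.MP_799fdf_al.Inn.Base

/-!
# MP_799fdf_al, coprime outer parts, general version: definitions
-/

set_option autoImplicit false

open scoped commutatorElement

namespace MP799fdf

namespace Tw

/-- the functions `s : Γ × Y → Γ` such that for every `γ` there is `y` with `s (γ, y) = γ` -/
def Fx (Γ Y : Type) : Type := {s : Γ × Y → Γ // ∀ γ, ∃ y, s (γ, y) = γ}

/-- the projection -/
def Fx.one {Γ Y : Type} [Nonempty Y] : Fx Γ Y :=
  ⟨fun x => x.1, fun _ => ⟨Classical.arbitrary Y, rfl⟩⟩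

/-- composition -/
def Fx.star {Γ Y Y' : Type} (s : Fx Γ Y) (τ : Fx Γ Y') : Fx Γ (Y × Y') :=
  ⟨fun x => s.1 (τ.1 (x.1, x.2.2), x.2.1), fun γ => by
    obtain ⟨y', h'⟩ := τ.2 γ
    obtain ⟨y, h⟩ := s.2 γ
    exact ⟨(y, y'), by
      show s.1 (τ.1 (γ, y'), y) = γ
      rw [h', h]⟩⟩

/-- composition of a function with `τ` -/
def wstar {Γ Y Y' D : Type} (w : Γ × Y → D) (τ : Fx Γ Y') : Γ × (Y × Y') → D :=
  fun x => w (τ.1 (x.1, x.2.2), x.2.1)

/-- `w` factors through `Γ/L × Y` -/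
def Fac {Γ Y D : Type} [Group Γ] (w : Γ × Y → D) (L : Subgroup Γ) : Prop :=
  ∀ γ γ' y, γ⁻¹ * γ' ∈ L → w (γ, y) = w (γ', y)

/-- the parameter sets -/
def YY (n : ℕ) : ℕ → Type
  | 0 => Unit
  | r + 1 => YY n r × Fin n

instance YY.finite (n : ℕ) : ∀ r, Finite (YY n r)
  | 0 => inferInstanceAs (Finite Unit)
  | r + 1 => haveI := YY.finite n r; inferInstanceAs (Finite (YY n r × Fin n))

instance YY.nonempty (n : ℕ) [NeZero n] : ∀ r, Nonempty (YY n r)
  | 0 => inferInstanceAs (Nonempty Unit)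
  | r + 1 => haveI := YY.nonempty n r; inferInstanceAs (Nonempty (YY n r × Fin n))

/-- the label of `i` -/
def lab {ι : Type} [DecidableEq ι] (J : Option ι) (i : ι) : Option ι :=
  if J = some i then none else some i

/-- Local subgroups `R i` with actions `al i` on them, of types `t i`; the outer part of type `τ` is
`u τ : A τ → C τ`. -/
structure Eng (K : Type) [Group K] (ι T : Type) (A C : T → Type) [∀ τ, Group (A τ)]
    [∀ τ, Group (C τ)] where
  R : ι → Subgroup K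
  t : ι → T
  al : ∀ i, K →* A (t i)
  u : ∀ τ, A τ →* C τ
  nR : ∀ i, (R i).Normal
  comm : ∀ i j, i ≠ j → ∀ x ∈ R i, ∀ y ∈ R j, Commute x y
  surj : ∀ i, Function.Surjective (al i)
  usurj : ∀ τ, Function.Surjective (u τ)
  mapR : ∀ i a, u (t i) a = 1 ↔ ∃ r ∈ R i, al i r = a
  ker : ∀ i x, al i x = 1 ↔ ∀ y ∈ R i, Commute x y
  n : ℕ
  solv : dser (⊤ : Subgroup K) n ≤ ⨆ i, R i

/-- the points: a type, a function, a label -/
abbrev XX (K Y ι : Type) {T : Type} (C : T → Type) : Type := Σ τ : T, (K × Y → C τ) × Option ι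

/-- the parameters -/
abbrev EE (K Y ι : Type) : Type := Fx K Y × Option ι

namespace Eng

variable {K : Type} [Group K] {ι T : Type} {A C : T → Type} [∀ τ, Group (A τ)]
  [∀ τ, Group (C τ)] (D : Eng K ι T A C)

/-- the outer part of the action on `R i` -/
def rho (i : ι) : K →* C (D.t i) := (D.u (D.t i)).comp (D.al i)

/-- the function of `i` under the parameter `e` -/
abbrev trD {Y : Type} (e : EE K Y ι) (i : ι) : K × Y → C (D.t i) := fun x => D.rho i (e.1.1 x)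

variable [DecidableEq ι]

/-- the point of `i` under the parameter `e` -/
abbrev ptD {Y : Type} (e : EE K Y ι) (i : ι) : XX K Y ι C := ⟨D.t i, (D.trD e i, lab e.2 i)⟩

/-- the free subdirect power -/
def Pi (Y : Type) : Subgroup (EE K Y ι → K) where
  carrier := {f | ∃ g : ∀ x : XX K Y ι C, A x.1, ∀ e i, D.al i (f e) = g (D.ptD e i)}
  one_mem' := ⟨fun _ => 1, fun e i => (D.al i).map_one⟩
  mul_mem' := by
    rintro f f' ⟨g, hg⟩ ⟨g', hg'⟩
    refine ⟨fun x => g x * g' x, fun e i => ?_⟩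
    rw [Pi.mul_apply, map_mul, hg, hg']
  inv_mem' := by
    rintro f ⟨g, hg⟩
    refine ⟨fun x => (g x)⁻¹, fun e i => ?_⟩
    rw [Pi.inv_apply, map_inv, hg]

variable [Fintype ι]

/-- multiplication `∏ R i → K` -/
noncomputable def P : (∀ i, D.R i) →* K :=
  Subgroup.noncommPiCoprod fun i j hij x y hx hy => D.comm i j hij x hx y hy

/-- the normal subgroup of `Pi` belonging to a set `Z` of points -/
def M {Y : Type} (Z : Finset (XX K Y ι C)) : Subgroup (EE K Y ι → K) where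
  carrier := {f | ∃ r : ∀ i, (K × Y → C (D.t i)) × Option ι → D.R i,
    (∃ g : ∀ x : XX K Y ι C, A x.1, ∀ i w, D.al i (r i w) = g ⟨D.t i, w⟩) ∧
    (∀ i w, (⟨D.t i, w⟩ : XX K Y ι C) ∈ Z → r i w = 1) ∧
    ∀ e, f e = D.P fun i => r i (D.trD e i, lab e.2 i)}
  one_mem' := by
    refine ⟨fun _ _ => 1, ⟨fun _ => 1, fun i w => (D.al i).map_one⟩, fun _ _ _ => rfl, fun e => ?_⟩
    exact (D.P.map_one).symm
  mul_mem' := by
    rintro f f' ⟨r, ⟨g, hg⟩, hZ, hf⟩ ⟨r', ⟨g', hg'⟩, hZ', hf'⟩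
    refine ⟨fun i w => r i w * r' i w, ⟨fun x => g x * g' x, fun i w => ?_⟩, fun i w h => ?_,
      fun e => ?_⟩
    · rw [Subgroup.coe_mul, map_mul, hg, hg']
    · show r i w * r' i w = 1
      rw [hZ i w h, hZ' i w h, one_mul]
    · rw [Pi.mul_apply, hf, hf', ← map_mul]
      rfl
  inv_mem' := by
    rintro f ⟨r, ⟨g, hg⟩, hZ, hf⟩
    refine ⟨fun i w => (r i w)⁻¹, ⟨fun x => (g x)⁻¹, fun i w => ?_⟩, fun i w h => ?_, fun e => ?_⟩
    · rw [Subgroup.coe_inv, map_inv, hg]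
    · show (r i w)⁻¹ = 1
      rw [hZ i w h, inv_one]
    · rw [Pi.inv_apply, hf, ← map_inv]
      rfl

end Eng

end Tw

end MP799fdf
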