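import Pool.Agent.Lib.MP_799fdf_al.Tw.BuildB
import Pool.Agent.Lib.MP_799fdf_al.Tw.EngFin
import Pool.Agent.Lib.MP_799fdf_al.Tw.CPC
import Pool.Agent.Lib.MP_799fdf_al.Tw.Mono
import Pool.Agent.Lib.MP_799fdf_al.Tw.MonoB
import Pool.Agent.Lib.MP_799fdf_al.Inn.Fin

/-! # The theorem -/

set_option autoImplicit false

open scoped commutatorElement

namespace MP799fdf

namespace Tw

open Inn
open Cop (TT TA TY ty_form)

/-- the bound -/
noncomputable def bnd (G : Type) [Group G] : ℕ :=
  Nat.card G ^ bd (Nat.card G * Nat.card G) (Nat.card (TT G))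

private theorem tw_card (G : Type) [Group G] [Finite G] (τ : TT G) :
    Nat.card (TA G τ) ≤ Nat.card G :=
  Nat.card_le_card_of_surjective _ (QuotientGroup.mk'_surjective (cen τ.1.1 τ.1.2 τ.2.nN))

private theorem tw_bnd (G : Type) [Group G] [Finite G] : Nat.card G ≤ bnd G := by
  unfold bnd
  exact Nat.le_self_pow (by unfold bd; omega) _

private theorem tw_small {G K : Type} [Group G] [Finite G] [Group K] [Finite K] {m : ℕ}
    (h : RB m K) (hm : m ≤ bnd G) : (genM (bnd G) K).mem K :=
  fun F hF => hF K ⟨mem_form K, rb_mono hm h⟩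

/-- The case with a monolith. -/
theorem genM_mono (G : Type) [Group G] [Finite G] (K : Type) [Group K] [Finite K]
    (hK : (form G).mem K) (hD : DP K) {V : Subgroup K} (hV : IsMono V) :
    (genM (bnd G) K).mem K := by
  classical
  have hTY := ty_form G K hK
  have hCB := chief_form K hK
  have hG1 : 1 ≤ Nat.card G := Nat.card_pos
  by_cases hne : ∃ L N : Subgroup K, Loc L N
  swap
  · push Not at hne
    exact tw_small (exists_loc_top hne) (hG1.trans (tw_bnd G))
  by_cases hbot : ∃ L : Subgroup K, Loc L ⊥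
  · obtain ⟨L, hL⟩ := hbot
    refine tw_small (m := Nat.card K) ⟨⊥, inferInstance, inferInstance, ?_⟩
      ((card_bot G hTY hV hL).trans (tw_bnd G))
    rw [Subgroup.index_bot]
  -- all local subgroups have nontrivial centres
  have hVn := hV.nV
  have hVN : ∀ L N : Subgroup K, Loc L N → V ≤ N := by
    intro L N h
    refine hV.le N h.nN fun e => hbot ⟨L, ?_⟩
    rw [← e]
    exact h
  have hcard : 1 < Nat.card V := by
    rw [Subgroup.one_lt_card_iff_ne_bot]
    exact hV.ne
  obtain ⟨p, hp, hpV⟩ := Nat.exists_prime_and_dvd (n := Nat.card V) (by omega)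
  obtain ⟨b, hb⟩ := exp_N hV hp hpV
  obtain ⟨D, hR, hal, hrho⟩ := exists_eng G K (fun L N h => (hD L N h).1) hTY
  have : Fintype {L : Subgroup K // ∃ N, Loc L N} := Fintype.ofFinite _
  have hGG : NeZero (Nat.card G * Nat.card G) := ⟨(Nat.mul_pos hG1 hG1).ne'⟩
  have hbn : (⊥ : Subgroup K).Normal := inferInstance
  have hEn : (cen V ⊥ hbn).Normal := cen_normal V ⊥ hVn hbn
  have hEi : (cen V ⊥ hbn).index ≤ Nat.card G := cen_index hCB (mono_chief hV)
  refine D.genM_eng (a := Nat.card G) (n := Nat.card G * Nat.card G) (tw_card G) hG1 hp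
    (b := b) ?_ (cen V ⊥ hbn) hEn ?_ ?_
  · intro i z hz hz1
    obtain ⟨N, hN⟩ := i.2
    rw [hR i] at hz
    have h4 : z ∈ N := loc_inf_cen hN ⟨hz, (hal i N hN z).1 hz1⟩
    refine hb N hN.nN (fun x hx y hy => ?_) z h4
    have h5 : ⁅x, y⁆ ∈ ⁅N, i.1⁆ := Subgroup.commutator_mem_commutator hx (hN.lt.le hy)
    rw [(hD i.1 N hN).1, Subgroup.mem_bot] at h5
    exact commutatorElement_eq_one_iff_commute.1 h5
  · intro τ
    exact Nat.mul_le_mul ((Nat.card_le_card_of_surjective _
      (QuotientGroup.mk'_surjective (TB G τ))).trans (tw_card G τ)) hEi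
  · intro i
    obtain ⟨N, hN⟩ := i.2
    rw [← Subgroup.relIndex_ker, hrho i N hN]
    refine (hD i.1 N hN).2 V ⊥ hVn hbn (bot_lt_iff_ne_bot.2 hV.ne) (hVN i.1 N hN) p hp ?_
    rw [Subgroup.relIndex_bot_left]
    exact hpV

theorem genM_all (G : Type) [Group G] [Finite G] (hG : DP G) (K : Type) [Group K] [Finite K]
    (hK : (form G).mem K) : (genM (bnd G) K).mem K := by
  have key : ∀ N : ℕ, ∀ (K : Type) [Group K] [Finite K], (form G).mem K → Nat.card K ≤ N →
      (genM (bnd G) K).mem K := by
    intro N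
    induction N with
    | zero =>
      intro K _ _ _ h0
      have : 0 < Nat.card K := Nat.card_pos
      omega
    | succ N ihN =>
      intro K _ _ hK hcard
      rcases mono_or K with h1 | ⟨V, hV⟩ | ⟨N₁, N₂, hN₁, hN₂, h1, h2, h12⟩
      · refine tw_small (m := 1) ⟨⊤, inferInstance, ?_, ?_⟩
          ((Nat.card_pos (α := G)).trans_le (tw_bnd G))
        · have : Subsingleton K := (Nat.card_eq_one_iff_unique.1 h1).1
          infer_instance
        · rw [Subgroup.index_top]
      · exact genM_mono G K hK (dp_form hG K hK) hV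
      · have hq : ∀ M : Subgroup K, M.Normal → M ≠ ⊥ → ∀ [M.Normal],
            (genM (bnd G) K).mem (K ⧸ M) := by
          intro M hM hM0 _
          have h4 : (form K).mem (K ⧸ M) := (form K).quot K M (mem_form K)
          refine genM_le h4 _ (ihN (K ⧸ M) (form_le (form G) hK _ h4) ?_)
          have h5 := Subgroup.card_eq_card_quotient_mul_card_subgroup M
          have h6 : 1 < Nat.card M := by
            rw [Subgroup.one_lt_card_iff_ne_bot]
            exact hM0
          have h7 : 0 < Nat.card (K ⧸ M) := Nat.card_pos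
          have h8 : Nat.card (K ⧸ M) < Nat.card K := by
            rw [h5]
            exact lt_mul_of_one_lt_right h7 h6
          omega
        refine (genM (bnd G) K).of_two (QuotientGroup.mk' N₁) (QuotientGroup.mk' N₂)
          (QuotientGroup.mk'_surjective N₁) (QuotientGroup.mk'_surjective N₂)
          (hq N₁ hN₁ h1) (hq N₂ hN₂ h2) ?_
        intro x hx1 hx2
        have h3 : x ∈ N₁ := by
          rw [← QuotientGroup.ker_mk' N₁]
          exact hx1
        have h4 : x ∈ N₂ := by
          rw [← QuotientGroup.ker_mk' N₂]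
          exact hx2
        have h5 : x ∈ N₁ ⊓ N₂ := ⟨h3, h4⟩
        rw [h12] at h5
        exact Subgroup.mem_bot.1 h5
  exact key (Nat.card K) K hK le_rfl

/-- THE THEOREM. -/
theorem main (G : Type) [Group G] [Finite G] (hG : DP G) :
    {F : Formation | F.IsSub (form G)}.Finite := by
  obtain ⟨B, hB⟩ := genB_of_RB G (bnd G)
  refine finite_of_genB B fun K _ _ hK => ?_
  refine genM_all G hG K hK (genB B K) fun H _ _ hH => ?_
  exact genB_le hH.1 H (hB H (form_le (form G) hK H hH.1) hH.2)

end Tw

end MP799fdf
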