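import Pool.Agent.Lib.MP_799fdf_al.Tw.NuB

/-! # The functionals `kap r` -/

set_option autoImplicit false

open Classical in
section

namespace MP799fdf

namespace Tw

variable {Γ : Type} [Group Γ] [Finite Γ] {E₀ : Subgroup Γ} {n : ℕ} [NeZero n] {R G : Type} [CommRing R]
  [AddCommGroup G] [Module R G]

/-- the functional after `r` rounds -/
noncomputable def kap (c : ∀ L : NS E₀ n, ((Γ ⧸ L.1 → Γ) → G) →ₗ[R] G) :
    ∀ r : ℕ, (Fx Γ (YY n r) → G) →ₗ[R] G
  | 0 => LinearMap.proj (Fx.one : Fx Γ Unit)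
  | r + 1 => (kap c r).comp (LinearMap.pi fun s =>
      LinearMap.proj (Fx.star s (Fx.one : Fx Γ (Fin n))) -
        ∑ L ∈ Finset.univ.filter (fun L : NS E₀ n => L.1.index = n - r),
          (nu c L).comp (LinearMap.funLeft R G fun τ : Fx Γ (Fin n) => Fx.star s τ))

theorem kap_zero_apply (c : ∀ L : NS E₀ n, ((Γ ⧸ L.1 → Γ) → G) →ₗ[R] G)
    (F : Fx Γ (YY n 0) → G) : kap c 0 F = F Fx.one := rfl

theorem kap_succ_apply (c : ∀ L : NS E₀ n, ((Γ ⧸ L.1 → Γ) → G) →ₗ[R] G) (r : ℕ)
    (F : Fx Γ (YY n (r + 1)) → G) :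
    kap c (r + 1) F = kap c r fun s => F (Fx.star s (Fx.one : Fx Γ (Fin n))) -
      ∑ L ∈ Finset.univ.filter (fun L : NS E₀ n => L.1.index = n - r),
        nu c L fun τ => F (Fx.star s τ) := by
  change kap c r (fun s => ((LinearMap.proj (Fx.star s (Fx.one : Fx Γ (Fin n))) -
        ∑ L ∈ Finset.univ.filter (fun L : NS E₀ n => L.1.index = n - r),
          (nu c L).comp (LinearMap.funLeft R G fun τ : Fx Γ (Fin n) => Fx.star s τ)) :
          (Fx Γ (YY n r × Fin n) → G) →ₗ[R] G) F) = _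
  congr 1
  funext s
  rw [LinearMap.sub_apply, LinearMap.sum_apply]
  rfl

/-- PROOF. Unfold `Fac`, `wstar`. -/
theorem fac_star {Y Y' C : Type} (w : Γ × Y → C) (L M : Subgroup Γ) (hw : Fac w L)
    (s : Fx Γ Y') (hs : ∀ γ γ' y, γ⁻¹ * γ' ∈ M → (s.1 (γ, y))⁻¹ * s.1 (γ', y) ∈ L) :
    Fac (wstar w s) M :=
  fun γ γ' y h => hw _ _ _ (hs γ γ' y.2 h)

/-- PROOF. Unfold. -/
theorem inv_star {Y Y' C : Type} (w : Γ × Y → C) (L : Subgroup Γ) (hw : Fac w L)
    (H : (Γ × (Y × Y') → C) → G) : InvF L fun τ : Fx Γ Y' => H (wstar w τ) :=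
  fun _ _ h => congrArg H (funext fun x => hw _ _ _ (h (x.1, x.2.2)))

private theorem kapA_index_lt {L M : Subgroup Γ} (h : L ≤ M) (hne : L ≠ M) :
    M.index < L.index := by
  have h1 := Subgroup.relIndex_mul_index h
  have h2 : M.index ≠ 0 := Subgroup.index_ne_zero_of_finite
  have h3 : L.relIndex M ≠ 1 := fun h4 => hne (le_antisymm h (Subgroup.relIndex_eq_one.1 h4))
  have h4 : L.relIndex M ≠ 0 := fun h5 => by
    rw [h5, zero_mul] at h1
    exact (Subgroup.index_ne_zero_of_finite (H := L)) h1.symm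
  have h6 : 2 ≤ L.relIndex M := by omega
  have h7 : 2 * M.index ≤ L.relIndex M * M.index := Nat.mul_le_mul_right _ h6
  omega

/-- PROOF. Induction on `r`. `r = 0`: `kap_zero_apply`; `x ↦ g x.1` factors through `Lg`. Step: by
`kap_succ_apply` the value is `kap c r (fun s => H' (g ∘ s))` with
`H' w = H (wstar w one) - ∑ L, nu c L (fun τ => H (wstar w τ))`. By induction it is enough that `H' w = 0` if `w`
factors through a normal `L''` of index `≤ n - r`. `τ ↦ H (wstar w τ)` is invariant under `L''` (`inv_star`). If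
the index is `< n - r` then `H (wstar w one) = 0` (`fac_star` with `M = L = L''`), and all `nu c L` vanish
(`nu_zero`: `¬ L'' ≤ L` since `L.index = n - r > L''.index`; `Subgroup.index_dvd_of_le`, `Nat.le_of_dvd`). If it is
`n - r` then for `L ≠ L''` again `¬ L'' ≤ L` (equal finite index and `L'' ≤ L` give equality, e.g.
`Subgroup.relIndex_mul_index`, `relIndex_eq_one`), and for `L = L''` (it is in the sum) `nu c L = H (wstar w one)` by
`nu_one`: if `s` is as there for `M > L`, then `wstar w s` factors through `M` (`fac_star`), of index `≤ n - (r + 1)`. -/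
theorem kap_zero (hR : IsUnit ((Nat.card E₀ : ℕ) : R))
    (c : ∀ L : NS E₀ n, ((Γ ⧸ L.1 → Γ) → G) →ₗ[R] G) (hc : CcEq R G c) {C : Type} (g : Γ → C)
    (Lg : Subgroup Γ) (hLg : Lg.Normal) (hLE : Lg ≤ E₀) (hLn : Lg.index ≤ n)
    (hg : ∀ γ γ', γ⁻¹ * γ' ∈ Lg → g γ = g γ') (r : ℕ) (hr : r ≤ n) (H : (Γ × YY n r → C) → G)
    (hH : ∀ (w : Γ × YY n r → C) (L : Subgroup Γ), L.Normal → L ≤ E₀ → L.index ≤ n - r →
      Fac w L → H w = 0) :
    kap c r (fun s => H fun x => g (s.1 x)) = 0 := by
  induction r with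
  | zero =>
    rw [kap_zero_apply]
    exact hH _ Lg hLg hLE hLn (fun γ γ' y h => hg γ γ' h)
  | succ r ih =>
    rw [kap_succ_apply]
    refine ih (Nat.le_of_succ_le hr) (fun w => H (wstar w (Fx.one : Fx Γ (Fin n))) -
      ∑ L ∈ Finset.univ.filter (fun L : NS E₀ n => L.1.index = n - r),
        nu c L fun τ => H (wstar w τ)) ?_
    intro w L'' hn hE hle hw
    have hinv : InvF L'' fun τ : Fx Γ (Fin n) => H (wstar w τ) := inv_star w L'' hw H
    show H (wstar w (Fx.one : Fx Γ (Fin n))) -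
      ∑ L ∈ Finset.univ.filter (fun L : NS E₀ n => L.1.index = n - r),
        nu c L (fun τ => H (wstar w τ)) = 0
    rcases Nat.lt_or_ge L''.index (n - r) with hlt | hge
    · have h1 : H (wstar w (Fx.one : Fx Γ (Fin n))) = 0 := by
        refine hH _ L'' hn hE (by omega) ?_
        exact fac_star w L'' L'' hw _ (fun γ γ' y h => h)
      have h2 : ∑ L ∈ Finset.univ.filter (fun L : NS E₀ n => L.1.index = n - r),
          nu c L (fun τ => H (wstar w τ)) = 0 := by
        refine Finset.sum_eq_zero fun L hL => ?_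
        have hLi : L.1.index = n - r := (Finset.mem_filter.1 hL).2
        refine nu_zero hR c hc L L'' hn hE (fun hle' => ?_) _ hinv
        have h3 : L.1.index ≤ L''.index :=
          Nat.le_of_dvd (Nat.pos_of_ne_zero Subgroup.index_ne_zero_of_finite)
            (Subgroup.index_dvd_of_le hle')
        omega
      rw [h1, h2, sub_zero]
    · have heq : L''.index = n - r := le_antisymm hle hge
      have hin : L''.index ≤ n := by omega
      have h2 : ∑ L ∈ Finset.univ.filter (fun L : NS E₀ n => L.1.index = n - r),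
          nu c L (fun τ => H (wstar w τ)) = nu c ⟨L'', hn, hE, hin⟩ (fun τ => H (wstar w τ)) := by
        refine Finset.sum_eq_single (⟨L'', hn, hE, hin⟩ : NS E₀ n) (fun L hL hne => ?_) (fun h => ?_)
        · have hLi : L.1.index = n - r := (Finset.mem_filter.1 hL).2
          refine nu_zero hR c hc L L'' hn hE (fun hle' => ?_) _ hinv
          have hne' : L'' ≠ L.1 := fun h => hne (Subtype.ext h.symm)
          have h3 := kapA_index_lt hle' hne'
          omega
        · exact (h (Finset.mem_filter.2 ⟨Finset.mem_univ _, heq⟩)).elim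
      have h3 : nu c ⟨L'', hn, hE, hin⟩ (fun τ => H (wstar w τ))
          = H (wstar w (Fx.one : Fx Γ (Fin n))) := by
        refine nu_one hR c hc ⟨L'', hn, hE, hin⟩ (fun τ => H (wstar w τ)) hinv ?_
        rintro s ⟨M, hlt, hM⟩
        have hlt' : L'' < M.1 := hlt
        have h4 := kapA_index_lt hlt'.le hlt'.ne
        refine hH _ M.1 M.2.1 M.2.2.1 (by omega) ?_
        exact fac_star w L'' M.1 hw s hM
      rw [h2, h3, sub_self]

end Tw

end MP799fdf

end
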