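import Pool.Agent.Lib.MP_799fdf_al.Tw.NuA

/-! # The value of `nu L` -/

set_option autoImplicit false

namespace MP799fdf

namespace Tw

variable {Γ : Type} [Group Γ] [Finite Γ] {E₀ : Subgroup Γ} {n : ℕ} [NeZero n] {R G : Type} [CommRing R]
  [AddCommGroup G] [Module R G]

/-- PROOF. By invariance under `L` all terms of the average over `l` are equal (`tau (θ * l) ≡ tau θ` modulo `L`
pointwise): `H f = Ψ (tau (f⁻¹ * out))` (`avg_const`, `unit_card`). `cc_supp`: `H out = Ψ (tau 1) = Ψ one`, and for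
`M > L`, `g : Γ ⧸ M → Γ`, `H (g ∘ prq) = Ψ s`, `s (γ, y) = γ * (out γ)⁻¹ * g (prq γ) * θ (ζ y)`; here
`γ * (out γ)⁻¹ ∈ L` and `prq (γ : Γ ⧸ L) = (γ : Γ ⧸ M)` (`prq_mk`) depends only on `γ` modulo `M`, so `Ψ s = 0` by
`h0`. -/
theorem nu_one (hR : IsUnit ((Nat.card E₀ : ℕ) : R))
    (c : ∀ L : NS E₀ n, ((Γ ⧸ L.1 → Γ) → G) →ₗ[R] G) (hc : CcEq R G c) (L : NS E₀ n)
    (Ψ : Fx Γ (Fin n) → G) (hΨ : InvF L.1 Ψ)
    (h0 : ∀ s : Fx Γ (Fin n), (∃ M : NS E₀ n, L < M ∧ ∀ γ γ' y, γ⁻¹ * γ' ∈ M.1 →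
      (s.1 (γ, y))⁻¹ * s.1 (γ', y) ∈ L.1) → Ψ s = 0) :
    nu c L Ψ = Ψ Fx.one := by
  have hL : L.1.Normal := L.2.1
  have key : ∀ f : Γ ⧸ L.1 → Γ, (avg R (Γ ⧸ L.1 → L.1) G fun l =>
      Ψ (tau L fun b => (f b)⁻¹ * b.out * (l b : Γ))) =
      Ψ (tau L fun b => (f b)⁻¹ * b.out) := by
    intro f
    refine avg_const (unit_card hR L.1 L.2.2.1) _ _ fun l => ?_
    refine hΨ _ _ fun x => ?_
    rw [← QuotientGroup.eq]
    have h1 : ∀ b, ((l b : Γ) : Γ ⧸ L.1) = 1 := fun b =>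
      (QuotientGroup.eq_one_iff _).2 (l b).2
    simp only [tau, QuotientGroup.mk_mul, QuotientGroup.mk_inv, h1, mul_one]
  have hH : (fun f : Γ ⧸ L.1 → Γ => avg R (Γ ⧸ L.1 → L.1) G fun l =>
      Ψ (tau L fun b => (f b)⁻¹ * b.out * (l b : Γ))) =
      fun f => Ψ (tau L fun b => (f b)⁻¹ * b.out) := funext key
  rw [nu_apply, hH, cc_supp c hc L]
  · refine hΨ _ _ fun x => ?_
    show (x.1 * ((Quotient.out (x.1 : Γ ⧸ L.1))⁻¹ * Quotient.out (x.1 : Γ ⧸ L.1))⁻¹ *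
      ((Quotient.out (zet L x.2))⁻¹ * Quotient.out (zet L x.2)))⁻¹ * x.1 ∈ L.1
    rw [inv_mul_cancel, inv_mul_cancel, inv_one, mul_one, mul_one, inv_mul_cancel]
    exact L.1.one_mem
  · intro M hM g
    refine h0 _ ⟨M, hM, fun γ γ' y hγ => ?_⟩
    show (γ * ((g (prq L M (γ : Γ ⧸ L.1)))⁻¹ * Quotient.out (γ : Γ ⧸ L.1))⁻¹ *
        ((g (prq L M (zet L y)))⁻¹ * Quotient.out (zet L y)))⁻¹ *
      (γ' * ((g (prq L M (γ' : Γ ⧸ L.1)))⁻¹ * Quotient.out (γ' : Γ ⧸ L.1))⁻¹ *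
        ((g (prq L M (zet L y)))⁻¹ * Quotient.out (zet L y))) ∈ L.1
    have h2 : prq L M (γ : Γ ⧸ L.1) = prq L M (γ' : Γ ⧸ L.1) := by
      rw [prq_mk L M hM.le, prq_mk L M hM.le]
      exact QuotientGroup.eq.2 hγ
    have h3 : ∀ z : Γ, ((Quotient.out (z : Γ ⧸ L.1) : Γ) : Γ ⧸ L.1) = (z : Γ ⧸ L.1) :=
      fun z => QuotientGroup.out_eq' _
    rw [h2, ← QuotientGroup.eq]
    simp only [QuotientGroup.mk_mul, QuotientGroup.mk_inv, h3, mul_inv_rev, inv_inv]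
    group

end Tw

end MP799fdf
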