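import Pool.Agent.Lib.MP_799fdf_al.Tw.PHomA
import Pool.Agent.Lib.MP_799fdf_al.Tw.PHomB

/-! # Functions in all `M Z` -/

set_option autoImplicit false

open scoped commutatorElement

namespace MP799fdf

namespace Tw

namespace Eng

variable {K : Type} [Group K] [Finite K] {ι T : Type} {A C : T → Type} [∀ τ, Group (A τ)]
  [∀ τ, Group (C τ)] (D : Eng K ι T A C) [Fintype ι] [DecidableEq ι] {Y : Type}
  [Finite T]

/-- PROOF. `Z = {ptD e i}`: `r i (..) = 1`, and `al i (f e) = al i (r i (..)) = 1` (`al_P`). -/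
theorem al_one {m : ℕ} (hm : 1 ≤ m) (f : EE K Y ι → K)
    (hf : ∀ Z : Finset (XX K Y ι C), Z.card ≤ m → f ∈ D.M Z) (e : EE K Y ι) (i : ι) :
    D.al i (f e) = 1 := by
  classical
  obtain ⟨r, ⟨g, hg⟩, h1, h2⟩ := hf {D.ptD e i} (by simpa using hm)
  rw [h2, D.al_P, h1 i (D.trD e i, lab e.2 i) (Finset.mem_singleton.2 rfl)]
  simp

/-- The representation by functions with values in the centres. PROOF. (as `exists_h` in `Cop/RedA.lean`)
`r` from `f ∈ M Z`. `al i (r i (trD e i, _)) = al i (f e) = 1` (`al_P`, `al_one`), so `r i (trD e i, _) ∈ CC`. Define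
`h i w = ⟨r i w, _⟩` if `al i (r i w) = 1` and `1` otherwise. `f e = P (..) = zi (∏ ..)` (`P_prod`).
-/
theorem exists_h {m : ℕ} (hm : 1 ≤ m) (f : EE K Y ι → K)
    (hf : ∀ Z : Finset (XX K Y ι C), Z.card ≤ m → f ∈ D.M Z)
    (Z : Finset (XX K Y ι C)) (hZ : Z.card ≤ m) :
    ∃ h : ∀ i, (K × Y → C (D.t i)) × Option ι → D.ZZ,
      (∀ i w, (⟨D.t i, w⟩ : XX K Y ι C) ∈ Z → h i w = 1) ∧
      ∀ e, f e = D.zi (∏ i, h i (D.trD e i, lab e.2 i)) := by
  classical
  obtain ⟨r, ⟨g, hg⟩, h1, h2⟩ := hf Z hZ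
  let h : ∀ i, (K × Y → C (D.t i)) × Option ι → D.ZZ := fun i w =>
    if hh : D.al i (r i w) = 1 then
      (⟨(r i w : K), Subgroup.subset_closure ⟨i, (r i w).2, hh⟩⟩ : Subgroup.closure D.CC)
    else 1
  have hpos : ∀ i w, D.al i (r i w) = 1 → D.zi (h i w) = (r i w : K) := by
    intro i w hh
    have e1 : h i w =
        (⟨(r i w : K), Subgroup.subset_closure ⟨i, (r i w).2, hh⟩⟩ : Subgroup.closure D.CC) :=
      dif_pos hh
    rw [e1]
    rfl
  refine ⟨h, fun i w hw => ?_, fun e => ?_⟩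
  · apply D.zi_inj
    have h3 : r i w = 1 := h1 i w hw
    rw [hpos i w (by rw [h3]; simp), h3, map_one]
    rfl
  · rw [h2 e]
    apply D.P_prod
    intro i
    refine (hpos i _ ?_).symm
    rw [← D.al_P (fun j => r j (D.trD e j, lab e.2 j)) i, ← h2 e]
    exact D.al_one hm f hf e i

/-- The exponent of `ZZ`. -/
theorem zz_exp {q : ℕ} (hz : ∀ i, ∀ z ∈ D.R i, D.al i z = 1 → z ^ q = 1) (x : D.ZZ) :
    x ^ q = 1 := by
  obtain ⟨y, hy⟩ := x
  apply D.zi_inj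
  rw [map_pow, map_one]
  show y ^ q = 1
  have hcomm : ∀ a ∈ Subgroup.closure D.CC, ∀ b ∈ Subgroup.closure D.CC, a * b = b * a := by
    intro a ha b hb
    have h1 : (show D.ZZ from ⟨a, ha⟩) * (show D.ZZ from ⟨b, hb⟩) =
        (show D.ZZ from ⟨b, hb⟩) * (show D.ZZ from ⟨a, ha⟩) := mul_comm (G := D.ZZ) _ _
    exact congrArg D.zi h1
  refine Subgroup.closure_induction (p := fun y _ => y ^ q = 1) ?_ ?_ ?_ ?_ hy
  · rintro z ⟨i, hzR, hz1⟩
    exact hz i z hzR hz1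
  · exact one_pow q
  · intro a b ha hb h1 h2
    have h3 : Commute a b := hcomm a ha b hb
    rw [h3.mul_pow, h1, h2, one_mul]
  · intro a ha h1
    rw [inv_pow, h1, inv_one]

end Eng

end Tw

end MP799fdf
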